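import Pool.Agent.W850.HT.Char

set_option autoImplicit false

/-!
# Blocks of a marked Poisson process
-/

open MeasureTheory ProbabilityTheory Set Filter Topology
open scoped NNReal ENNReal

namespace Pool.Agent.P8H97.ST

open Pool.Agent.W850.HT (unif integral_prod_infinitePi)

/-- A mark: position in time and rank, both in the unit interval. -/
abbrev Mark := ℝ × ℝ

/-- The law of a mark: two independent uniform variables. -/
noncomputable def mlaw : Measure Mark := unif.prod unif

instance : IsProbabilityMeasure mlaw := by unfold mlaw; infer_instance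

/-- One block: a number of points and a sequence of marks. -/
abbrev Blk := ℕ × (ℕ → Mark)

/-- The law of a block of rate `r`. -/
noncomputable def blk (r : ℝ≥0) : Measure Blk :=
  (poissonMeasure r).prod (Measure.infinitePi fun _ : ℕ => mlaw)

instance (r : ℝ≥0) : IsProbabilityMeasure (blk r) := by unfold blk; infer_instance

theorem measurable_blk {g : Mark → ℂ} (hg : Measurable g) :
    Measurable (fun b : Blk => ∏ i ∈ Finset.range b.1, g (b.2 i)) := by
  apply measurable_from_prod_countable_right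
  intro k
  simp only
  exact Finset.measurable_prod (Finset.range k) (fun i _ => hg.comp (measurable_pi_apply i))

theorem integral_blk (r : ℝ≥0) {g : Mark → ℂ} (hg : Measurable g) (hb : ∀ u, ‖g u‖ ≤ 1) :
    ∫ b, ∏ i ∈ Finset.range b.1, g (b.2 i) ∂(blk r) =
      Complex.exp (r * ((∫ u, g u ∂mlaw) - 1)) := by
  have hint : Integrable (fun b : Blk => ∏ i ∈ Finset.range b.1, g (b.2 i)) (blk r) := by
    refine Integrable.of_bound (measurable_blk hg).aestronglyMeasurable 1 (ae_of_all _ ?_)
    intro b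
    rw [norm_prod]
    exact Finset.prod_le_one (fun i _ => norm_nonneg _) (fun i _ => hb _)
  rw [blk] at hint ⊢
  rw [integral_prod _ hint]
  have h1 : ∀ k : ℕ, ∫ U, ∏ i ∈ Finset.range k, g (U i) ∂(Measure.infinitePi fun _ : ℕ => mlaw) =
      (∫ u, g u ∂mlaw) ^ k := by
    intro k
    rw [integral_prod_infinitePi (fun _ : ℕ => mlaw) (Finset.range k) (fun _ => g) (fun _ => hg)]
    simp
  simp_rw [h1]
  rw [integral_poissonMeasure r]
  calc ∑' n : ℕ, (Real.exp (-r) * r ^ n / (n.factorial)) • (∫ u, g u ∂mlaw) ^ n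
      = ∑' n : ℕ, (Real.exp (-r) : ℂ) * ((r * (∫ u, g u ∂mlaw)) ^ n / n.factorial) := by
        congr with n
        rw [Complex.real_smul]
        push_cast
        rw [mul_pow]
        ring
    _ = (Real.exp (-r) : ℂ) * ∑' n : ℕ, ((r * (∫ u, g u ∂mlaw)) ^ n / n.factorial) := tsum_mul_left
    _ = (Real.exp (-r) : ℂ) * Complex.exp (r * (∫ u, g u ∂mlaw)) := by
        rw [(NormedSpace.expSeries_div_hasSum_exp (r * (∫ u, g u ∂mlaw))).tsum_eq,
          Complex.exp_eq_exp_ℂ]
    _ = _ := by
        rw [Complex.ofReal_exp, ← Complex.exp_add]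
        push_cast
        ring_nf

/-- The sample space: `(k, m, s)` is (time block, rank block, sign). -/
abbrev Om := ℕ × ℕ × Bool → Blk

/-- The law. -/
noncomputable def PP (r : ℝ≥0) : Measure Om :=
  Measure.infinitePi (fun _ : ℕ × ℕ × Bool => blk r)

instance (r : ℝ≥0) : IsProbabilityMeasure (PP r) := by unfold PP; infer_instance

theorem integral_PP (r : ℝ≥0) (S : Finset (ℕ × ℕ × Bool)) {g : ℕ × ℕ × Bool → Mark → ℂ}
    (hg : ∀ p, Measurable (g p)) (hb : ∀ p u, ‖g p u‖ ≤ 1) :
    ∫ ω : Om, ∏ p ∈ S, ∏ i ∈ Finset.range (ω p).1, g p ((ω p).2 i) ∂(PP r) =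
      ∏ p ∈ S, Complex.exp (r * ((∫ u, g p u ∂mlaw) - 1)) := by
  rw [PP, integral_prod_infinitePi (fun _ : ℕ × ℕ × Bool => blk r) S
    (fun p b => ∏ i ∈ Finset.range b.1, g p (b.2 i)) (fun p => measurable_blk (hg p))]
  exact Finset.prod_congr rfl (fun p _ => integral_blk _ (hg p) (hb p))

theorem poisson_mean (ν : ℝ≥0) : ∫⁻ n, (n : ℝ≥0∞) ∂(poissonMeasure ν) = ν := by
  rw [lintegral_countable', tsum_eq_zero_add' ENNReal.summable]
  simp only [Nat.cast_zero, zero_mul, zero_add]
  have h1 : ∀ n : ℕ, ((n + 1 : ℕ) : ℝ≥0∞) * (poissonMeasure ν) {n + 1} =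
      ν * (poissonMeasure ν) {n} := by
    intro n
    rw [poissonMeasure_singleton, poissonMeasure_singleton, ← ENNReal.ofReal_natCast,
      ← ENNReal.ofReal_mul (by positivity), ← ENNReal.ofReal_coe_nnreal (p := ν),
      ← ENNReal.ofReal_mul (by positivity)]
    congr 1
    rw [Nat.factorial_succ, pow_succ]
    have : ((n.factorial : ℕ) : ℝ) ≠ 0 := by positivity
    have : ((n + 1 : ℕ) : ℝ) ≠ 0 := by positivity
    push_cast at *
    field_simp
  simp_rw [h1]
  rw [ENNReal.tsum_mul_left]
  have h2 := lintegral_countable' (μ := poissonMeasure ν) (fun _ : ℕ => (1 : ℝ≥0∞))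
  simp only [one_mul, lintegral_const, measure_univ] at h2
  rw [← h2, mul_one]

/-- the number of points of the block `p` has mean `r` -/
theorem lintegral_count (r : ℝ≥0) (p : ℕ × ℕ × Bool) :
    ∫⁻ ω : Om, ((ω p).1 : ℝ≥0∞) ∂(PP r) = r := by
  have h1 : (PP r).map (fun ω : Om => ω p) = blk r := by
    unfold PP
    exact Measure.infinitePi_map_eval _ p
  have h2 : (blk r).map Prod.fst = poissonMeasure r := by
    unfold blk
    simp
  have hm : Measurable (fun n : ℕ => (n : ℝ≥0∞)) := measurable_from_top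
  have h3 : ∫⁻ ω : Om, ((ω p).1 : ℝ≥0∞) ∂(PP r) = ∫⁻ n, (n : ℝ≥0∞) ∂(poissonMeasure r) := by
    rw [← h2, ← h1, lintegral_map hm measurable_fst, lintegral_map]
    · exact hm.comp measurable_fst
    · exact measurable_pi_apply p
  rw [h3]
  exact poisson_mean r

end Pool.Agent.P8H97.ST
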