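import Pool.Agent.P8H97.ST.Paths

set_option autoImplicit false

/-!
# The joint characteristic function of the increments
-/

open MeasureTheory ProbabilityTheory Set Filter Topology
open scoped NNReal ENNReal

namespace Pool.Agent.P8H97.ST

open Pool.Agent.W850.HT (unif ioc_unique sum_integral_unif integral_indicator_Ioc
  intervalIntegrable_indicator)

/-- the sign -/
def sg (s : Bool) : ℝ := if s then 1 else -1

/-- step functions -/
noncomputable def stp {n : ℕ} (t : Fin (n + 1) → ℝ) (ξ : Fin n → ℝ) (v : ℝ) : ℝ :=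
  ∑ j, ξ j * (Ioc (t j.castSucc) (t j.succ)).indicator (fun _ => (1 : ℝ)) v

theorem measurable_stp {n : ℕ} (t : Fin (n + 1) → ℝ) (ξ : Fin n → ℝ) : Measurable (stp t ξ) := by
  unfold stp
  refine Finset.measurable_sum _ fun j _ => ?_
  exact (measurable_const.indicator measurableSet_Ioc).const_mul _

/-- a function of a step function which vanishes at `0` -/
theorem comp_stp {n : ℕ} {t : Fin (n + 1) → ℝ} (ht : Monotone t) (ξ : Fin n → ℝ) (f : ℝ → ℂ)
    (hf : f 0 = 0) (v : ℝ) :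
    f (stp t ξ v) = ∑ j, f (ξ j) * (Ioc (t j.castSucc) (t j.succ)).indicator (fun _ => (1 : ℂ)) v := by
  by_cases h : ∃ j : Fin n, v ∈ Ioc (t j.castSucc) (t j.succ)
  · obtain ⟨j, hj⟩ := h
    have h1 : stp t ξ v = ξ j := by
      unfold stp
      rw [Finset.sum_eq_single j]
      · rw [indicator_of_mem hj, mul_one]
      · intro l _ hl
        rw [indicator_of_notMem (fun h => hl (ioc_unique ht h hj)), mul_zero]
      · intro h; exact absurd (Finset.mem_univ j) h
    rw [h1, Finset.sum_eq_single j]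
    · rw [indicator_of_mem hj, mul_one]
    · intro l _ hl
      rw [indicator_of_notMem (fun h => hl (ioc_unique ht h hj)), mul_zero]
    · intro h; exact absurd (Finset.mem_univ j) h
  · push Not at h
    have h1 : stp t ξ v = 0 := by
      unfold stp
      apply Finset.sum_eq_zero
      intro j _
      rw [indicator_of_notMem (h j), mul_zero]
    rw [h1, hf, Finset.sum_eq_zero]
    intro j _
    rw [indicator_of_notMem (h j), mul_zero]

/-- the factor of a point -/
noncomputable def gfun {n : ℕ} (t : Fin (n + 1) → ℝ) (ξ : Fin n → ℝ) (p : ℕ × ℕ × Bool)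
    (v : Mark) : ℂ :=
  Complex.exp (((sg p.2.2 * stp t ξ (tau p.1 v) * amp p.2.1 v : ℝ) : ℂ) * Complex.I)

theorem measurable_gfun {n : ℕ} (t : Fin (n + 1) → ℝ) (ξ : Fin n → ℝ) (p : ℕ × ℕ × Bool) :
    Measurable (gfun t ξ p) := by
  unfold gfun
  apply Complex.measurable_exp.comp
  apply Measurable.mul_const
  apply Complex.measurable_ofReal.comp
  exact (((measurable_stp t ξ).comp (measurable_tau _)).const_mul _).mul (measurable_amp _)

theorem norm_gfun {n : ℕ} (t : Fin (n + 1) → ℝ) (ξ : Fin n → ℝ) (p : ℕ × ℕ × Bool) (v : Mark) :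
    ‖gfun t ξ p v‖ ≤ 1 := by
  unfold gfun
  rw [Complex.norm_exp_ofReal_mul_I]

/-- time factor -/
noncomputable def I1 (a b : ℝ) (k : ℕ) : ℂ := ∫ u, (Ioc a b).indicator (fun _ => (1 : ℂ)) (k + u) ∂unif

/-- the function of the rank -/
noncomputable def cf (x ρ : ℝ) : ℂ := ((Real.cos (x * (ρ ^ 2)⁻¹) - 1 : ℝ) : ℂ)

theorem measurable_cf (x : ℝ) : Measurable (cf x) := by
  unfold cf
  fun_prop

theorem norm_cf (x ρ : ℝ) : ‖cf x ρ‖ ≤ 2 := by
  unfold cf
  rw [Complex.norm_real, Real.norm_eq_abs, abs_le]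
  constructor <;> linarith [Real.neg_one_le_cos (x * (ρ ^ 2)⁻¹), Real.cos_le_one (x * (ρ ^ 2)⁻¹)]

/-- rank factor -/
noncomputable def J1 (x : ℝ) (m : ℕ) : ℂ := ∫ ρ, cf x (m + ρ) ∂unif

theorem ae_mlaw : ∀ᵐ v ∂mlaw, v.1 ∈ Ioc (0:ℝ) 1 ∧ v.2 ∈ Ioc (0:ℝ) 1 := by
  have h1 : ∀ᵐ u ∂unif, u ∈ Ioc (0:ℝ) 1 := ae_restrict_mem measurableSet_Ioc
  have h2 : ∀ᵐ v ∂mlaw, v.1 ∈ Ioc (0:ℝ) 1 := by
    unfold mlaw
    exact Measure.quasiMeasurePreserving_fst.ae h1
  have h3 : ∀ᵐ v ∂mlaw, v.2 ∈ Ioc (0:ℝ) 1 := by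
    unfold mlaw
    exact Measure.quasiMeasurePreserving_snd.ae h1
  exact h2.and h3

theorem block_pair {n : ℕ} {t : Fin (n + 1) → ℝ} (ht : Monotone t) (ξ : Fin n → ℝ) (k m : ℕ) :
    ((∫ v, gfun t ξ (k, m, true) v ∂mlaw) - 1) + ((∫ v, gfun t ξ (k, m, false) v ∂mlaw) - 1) =
      ∑ j, 2 * (J1 (ξ j) m * I1 (t j.castSucc) (t j.succ) k) := by
  have hint : ∀ s, Integrable (gfun t ξ (k, m, s)) mlaw := fun s =>
    Integrable.of_bound (measurable_gfun _ _ _).aestronglyMeasurable 1 (ae_of_all _ (norm_gfun _ _ _))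
  have h0 : ((∫ v, gfun t ξ (k, m, true) v ∂mlaw) - 1) + ((∫ v, gfun t ξ (k, m, false) v ∂mlaw) - 1)
      = ∫ v, (gfun t ξ (k, m, true) v + gfun t ξ (k, m, false) v - 2) ∂mlaw := by
    have e1 : ∫ v, (gfun t ξ (k, m, true) v + gfun t ξ (k, m, false) v - 2) ∂mlaw =
        (∫ v, (gfun t ξ (k, m, true) v + gfun t ξ (k, m, false) v) ∂mlaw) - ∫ _v, (2:ℂ) ∂mlaw :=
      integral_sub ((hint true).add (hint false)) (integrable_const _)
    have e2 : (∫ v, (gfun t ξ (k, m, true) v + gfun t ξ (k, m, false) v) ∂mlaw) =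
        (∫ v, gfun t ξ (k, m, true) v ∂mlaw) + ∫ v, gfun t ξ (k, m, false) v ∂mlaw :=
      integral_add (hint true) (hint false)
    rw [e1, e2]
    simp
    ring
  rw [h0]
  have h1 : ∀ᵐ v ∂mlaw, gfun t ξ (k, m, true) v + gfun t ξ (k, m, false) v - 2 =
      ∑ j, 2 * (cf (ξ j) (m + v.2) *
        (Ioc (t j.castSucc) (t j.succ)).indicator (fun _ => (1 : ℂ)) (k + v.1)) := by
    filter_upwards [ae_mlaw] with v hv
    have e1 : tau k v = k + v.1 := by
      unfold tau
      rw [abs_of_pos hv.1.1, min_eq_left hv.1.2]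
    have e2 : amp m v = ((m + v.2) ^ 2)⁻¹ := by
      unfold amp
      rw [abs_of_pos hv.2.1]
    have e3 := comp_stp ht ξ (fun x => cf x (m + v.2)) (by unfold cf; simp) (k + v.1)
    rw [← Finset.mul_sum, ← e3]
    unfold gfun sg cf
    rw [e1, e2]
    simp only [if_true, Bool.false_eq_true, if_false]
    set x : ℝ := stp t ξ (k + v.1) * ((m + v.2) ^ 2)⁻¹ with hx
    have e4 : (1 * stp t ξ (k + v.1) * ((m + v.2) ^ 2)⁻¹ : ℝ) = x := by rw [hx]; ring
    have e5 : (-1 * stp t ξ (k + v.1) * ((m + v.2) ^ 2)⁻¹ : ℝ) = -x := by rw [hx]; ring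
    rw [e4, e5]
    push_cast
    rw [Complex.cos]
    ring_nf
  rw [integral_congr_ae h1, integral_finsetSum]
  · refine Finset.sum_congr rfl fun j _ => ?_
    rw [integral_const_mul]
    congr 1
    unfold mlaw J1 I1
    have := integral_prod_mul (μ := unif) (ν := unif)
      (fun u : ℝ => (Ioc (t j.castSucc) (t j.succ)).indicator (fun _ => (1 : ℂ)) (k + u))
      (fun ρ : ℝ => cf (ξ j) (m + ρ))
    rw [mul_comm (∫ ρ, cf (ξ j) (m + ρ) ∂unif), ← this]
    refine integral_congr_ae (ae_of_all _ fun v => ?_)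
    simp only
    ring
  · intro j _
    refine Integrable.of_bound ?_ (2 * 2) (ae_of_all _ fun v => ?_)
    · apply Measurable.aestronglyMeasurable
      apply Measurable.const_mul
      apply Measurable.mul
      · exact (measurable_cf _).comp (measurable_const.add measurable_snd)
      · exact (measurable_const.indicator measurableSet_Ioc).comp
          (measurable_const.add measurable_fst)
    · rw [norm_mul, norm_mul]
      have e1 := norm_cf (ξ j) (m + v.2)
      have e2 : ‖(Ioc (t j.castSucc) (t j.succ)).indicator (fun _ => (1 : ℂ)) ((k : ℝ) + v.1)‖ ≤ 1 := by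
        simp only [indicator]
        split_ifs <;> simp
      have e3 : ‖(2 : ℂ)‖ = 2 := by simp
      rw [e3]
      nlinarith [norm_nonneg (cf (ξ j) (m + v.2)), norm_nonneg ((Ioc (t j.castSucc) (t j.succ)).indicator (fun _ => (1 : ℂ)) ((k : ℝ) + v.1))]

/-- partial sums of the linear combination of the increments -/
noncomputable def PS {n : ℕ} (t : Fin (n + 1) → ℝ) (ξ : Fin n → ℝ) (M : ℕ) (ω : Om) : ℝ :=
  ∑ j, ξ j * (psum M true (Ioc (t j.castSucc) (t j.succ)) ω -
    psum M false (Ioc (t j.castSucc) (t j.succ)) ω)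

theorem PS_eq {n : ℕ} (t : Fin (n + 1) → ℝ) (ξ : Fin n → ℝ) (M : ℕ) (ω : Om) :
    PS t ξ M ω = ∑ p ∈ Finset.range M ×ˢ Finset.range M, ∑ s : Bool,
      ∑ i ∈ Finset.range (ω (p.1, p.2, s)).1,
        sg s * stp t ξ (tau p.1 ((ω (p.1, p.2, s)).2 i)) * amp p.2 ((ω (p.1, p.2, s)).2 i) := by
  have h1 : ∀ s : Bool, ∑ j, ξ j * psum M s (Ioc (t j.castSucc) (t j.succ)) ω =
      ∑ p ∈ Finset.range M ×ˢ Finset.range M, ∑ i ∈ Finset.range (ω (p.1, p.2, s)).1,
        stp t ξ (tau p.1 ((ω (p.1, p.2, s)).2 i)) * amp p.2 ((ω (p.1, p.2, s)).2 i) := by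
    intro s
    unfold psum stp
    simp_rw [Finset.mul_sum, Finset.sum_mul]
    rw [Finset.sum_comm]
    refine Finset.sum_congr rfl fun p _ => ?_
    rw [Finset.sum_comm]
    refine Finset.sum_congr rfl fun i _ => ?_
    refine Finset.sum_congr rfl fun j _ => ?_
    ring
  unfold PS
  simp_rw [mul_sub]
  rw [Finset.sum_sub_distrib, h1, h1, ← Finset.sum_sub_distrib]
  refine Finset.sum_congr rfl fun p _ => ?_
  rw [Fintype.sum_bool]
  unfold sg
  simp only [if_true, Bool.false_eq_true, if_false, one_mul, neg_mul]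
  rw [Finset.sum_neg_distrib]
  ring

theorem cexp_PS {n : ℕ} (t : Fin (n + 1) → ℝ) (ξ : Fin n → ℝ) (M : ℕ) (ω : Om) :
    Complex.exp ((PS t ξ M ω : ℂ) * Complex.I) =
      ∏ p ∈ Finset.range M ×ˢ Finset.range M ×ˢ (Finset.univ : Finset Bool),
        ∏ i ∈ Finset.range (ω p).1, gfun t ξ p ((ω p).2 i) := by
  rw [PS_eq]
  push_cast
  rw [Finset.sum_product, Finset.sum_mul, Complex.exp_sum, Finset.prod_product]
  refine Finset.prod_congr rfl fun k _ => ?_
  rw [Finset.sum_mul, Complex.exp_sum, Finset.prod_product]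
  refine Finset.prod_congr rfl fun m _ => ?_
  rw [Finset.sum_mul, Complex.exp_sum]
  refine Finset.prod_congr rfl fun s _ => ?_
  rw [Finset.sum_mul, Complex.exp_sum]
  refine Finset.prod_congr rfl fun i _ => ?_
  unfold gfun
  push_cast
  rfl

theorem intervalIntegrable_cf (x a b : ℝ) : IntervalIntegrable (cf x) volume a b := by
  rw [intervalIntegrable_iff]
  refine Measure.integrableOn_of_bounded (M := 2) ?_ (measurable_cf x).aestronglyMeasurable
    (ae_of_all _ (norm_cf x))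
  simp

theorem char_PS {r : ℝ≥0} {n : ℕ} {t : Fin (n + 1) → ℝ} (ht : Monotone t) (ht0 : 0 ≤ t 0)
    (ξ : Fin n → ℝ) (M : ℕ) (hM : t (Fin.last n) ≤ M) :
    ∫ ω, Complex.exp ((PS t ξ M ω : ℂ) * Complex.I) ∂(PP r) =
      Complex.exp (2 * r * ∑ j, (t j.succ - t j.castSucc : ℝ) * ∫ ρ in (0:ℝ)..M, cf (ξ j) ρ) := by
  simp_rw [cexp_PS]
  rw [integral_PP r _ (measurable_gfun t ξ) (norm_gfun t ξ), ← Complex.exp_sum]
  congr 1
  have key : ∑ k ∈ Finset.range M, ∑ m ∈ Finset.range M,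
      ∑ j, 2 * (J1 (ξ j) m * I1 (t j.castSucc) (t j.succ) k) =
      2 * ∑ j, ((t j.succ - t j.castSucc : ℝ) : ℂ) * ∫ ρ in (0:ℝ)..M, cf (ξ j) ρ := by
    have e1 : ∀ j : Fin n, ∑ k ∈ Finset.range M, I1 (t j.castSucc) (t j.succ) k =
        ((t j.succ - t j.castSucc : ℝ) : ℂ) := by
      intro j
      unfold I1
      have h5 := sum_integral_unif
        (f := (Ioc (t j.castSucc) (t j.succ)).indicator (fun _ => (1 : ℂ))) M
        (fun a b => intervalIntegrable_indicator _ _ a b)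
      rw [h5, integral_indicator_Ioc (ht0.trans (ht (Fin.zero_le _)))
        (ht (Fin.castSucc_le_succ j)) ((ht (Fin.le_last j.succ)).trans hM)]
    have e2 : ∀ j : Fin n, ∑ m ∈ Finset.range M, J1 (ξ j) m = ∫ ρ in (0:ℝ)..M, cf (ξ j) ρ := by
      intro j
      unfold J1
      exact sum_integral_unif M (fun a b => intervalIntegrable_cf _ a b)
    calc ∑ k ∈ Finset.range M, ∑ m ∈ Finset.range M,
          ∑ j, 2 * (J1 (ξ j) m * I1 (t j.castSucc) (t j.succ) k)
        = ∑ k ∈ Finset.range M, ∑ j, ∑ m ∈ Finset.range M,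
          2 * (J1 (ξ j) m * I1 (t j.castSucc) (t j.succ) k) := by
          refine Finset.sum_congr rfl fun k _ => ?_
          rw [Finset.sum_comm]
      _ = ∑ j, ∑ k ∈ Finset.range M, ∑ m ∈ Finset.range M,
          2 * (J1 (ξ j) m * I1 (t j.castSucc) (t j.succ) k) := by
          rw [Finset.sum_comm]
      _ = ∑ j, 2 * ((∑ k ∈ Finset.range M, I1 (t j.castSucc) (t j.succ) k) *
          ∑ m ∈ Finset.range M, J1 (ξ j) m) := by
          refine Finset.sum_congr rfl fun j _ => ?_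
          rw [Finset.sum_mul_sum, Finset.mul_sum]
          refine Finset.sum_congr rfl fun k _ => ?_
          rw [Finset.mul_sum]
          refine Finset.sum_congr rfl fun m _ => ?_
          ring
      _ = _ := by
          rw [Finset.mul_sum]
          refine Finset.sum_congr rfl fun j _ => ?_
          rw [e1, e2]
  calc ∑ p ∈ Finset.range M ×ˢ Finset.range M ×ˢ (Finset.univ : Finset Bool),
        (r : ℂ) * ((∫ u, gfun t ξ p u ∂mlaw) - 1)
      = ∑ k ∈ Finset.range M, ∑ m ∈ Finset.range M,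
        (r : ℂ) * ∑ j, 2 * (J1 (ξ j) m * I1 (t j.castSucc) (t j.succ) k) := by
        rw [Finset.sum_product]
        refine Finset.sum_congr rfl fun k _ => ?_
        rw [Finset.sum_product]
        refine Finset.sum_congr rfl fun m _ => ?_
        rw [Fintype.sum_bool, ← block_pair ht ξ k m]
        ring
    _ = (r : ℂ) * ∑ k ∈ Finset.range M, ∑ m ∈ Finset.range M,
        ∑ j, 2 * (J1 (ξ j) m * I1 (t j.castSucc) (t j.succ) k) := by
        rw [Finset.mul_sum]
        refine Finset.sum_congr rfl fun k _ => ?_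
        rw [Finset.mul_sum]
    _ = _ := by
        rw [key]
        ring

end Pool.Agent.P8H97.ST
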