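import Pool.Agent.P8H97.ST.Proc

set_option autoImplicit false

/-!
# The range of the process is covered by few short intervals
-/

open MeasureTheory ProbabilityTheory Set Filter Topology
open scoped NNReal ENNReal

namespace Pool.Agent.P8H97.ST

/-- the number of big points up to time `t` -/
noncomputable def nb (M : ℕ) (ω : Om) (t : ℝ) : ℕ :=
  ∑ k ∈ Finset.range 2, ∑ s : Bool, ∑ m ∈ Finset.range M,
    ((Finset.range (ω (k, m, s)).1).filter (fun i => tau k ((ω (k, m, s)).2 i) ≤ t)).card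

/-- the number of all big points -/
def NB (M : ℕ) (ω : Om) : ℕ :=
  ∑ k ∈ Finset.range 2, ∑ s : Bool, ∑ m ∈ Finset.range M, (ω (k, m, s)).1

theorem nb_le (M : ℕ) (ω : Om) (t : ℝ) : nb M ω t ≤ NB M ω := by
  unfold nb NB
  refine Finset.sum_le_sum fun k _ => Finset.sum_le_sum fun s _ => Finset.sum_le_sum fun m _ => ?_
  exact (Finset.card_filter_le _ _).trans (by rw [Finset.card_range])

theorem nb_mono (M : ℕ) (ω : Om) : Monotone (nb M ω) := by
  intro a b hab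
  unfold nb
  refine Finset.sum_le_sum fun k _ => Finset.sum_le_sum fun s _ => Finset.sum_le_sum fun m _ => ?_
  apply Finset.card_le_card
  intro i hi
  rw [Finset.mem_filter] at hi ⊢
  exact ⟨hi.1, hi.2.trans hab⟩

theorem no_big {M : ℕ} {ω : Om} {a b : ℝ} (hab : a ≤ b) (h : nb M ω a = nb M ω b) {k m : ℕ}
    {s : Bool} (hk : k < 2) (hm : m < M) : bm k m (ω (k, m, s)) (Ioc a b) = 0 := by
  have hle : ∀ k s m, ((Finset.range (ω (k, m, s)).1).filter
      (fun i => tau k ((ω (k, m, s)).2 i) ≤ a)).card ≤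
      ((Finset.range (ω (k, m, s)).1).filter (fun i => tau k ((ω (k, m, s)).2 i) ≤ b)).card := by
    intro k s m
    apply Finset.card_le_card
    intro i hi
    rw [Finset.mem_filter] at hi ⊢
    exact ⟨hi.1, hi.2.trans hab⟩
  unfold nb at h
  have h1 := (Finset.sum_eq_sum_iff_of_le (fun k _ => Finset.sum_le_sum fun s _ =>
    Finset.sum_le_sum fun m _ => hle k s m)).1 h k (Finset.mem_range.2 hk)
  have h2 := (Finset.sum_eq_sum_iff_of_le (fun s _ =>
    Finset.sum_le_sum fun m _ => hle k s m)).1 h1 s (Finset.mem_univ _)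
  have h3 := (Finset.sum_eq_sum_iff_of_le (fun m _ => hle k s m)).1 h2 m (Finset.mem_range.2 hm)
  have hsub : (Finset.range (ω (k, m, s)).1).filter (fun i => tau k ((ω (k, m, s)).2 i) ≤ a) ⊆
      (Finset.range (ω (k, m, s)).1).filter (fun i => tau k ((ω (k, m, s)).2 i) ≤ b) := by
    intro i hi
    rw [Finset.mem_filter] at hi ⊢
    exact ⟨hi.1, hi.2.trans hab⟩
  have h4 := Finset.eq_of_subset_of_card_le hsub h3.ge
  rw [bm_apply _ _ _ measurableSet_Ioc]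
  refine Finset.sum_eq_zero fun i hi => ?_
  rw [indicator_of_notMem, mul_zero]
  intro hc
  have h5 : i ∈ (Finset.range (ω (k, m, s)).1).filter (fun i => tau k ((ω (k, m, s)).2 i) ≤ b) :=
    Finset.mem_filter.2 ⟨hi, hc.2⟩
  rw [← h4, Finset.mem_filter] at h5
  exact absurd h5.2 (not_le.2 hc.1)

theorem kappa_small {M : ℕ} {ω : Om} {a b : ℝ} (hab : a ≤ b) (hb : b ≤ 1)
    (h : nb M ω a = nb M ω b) (s : Bool) :
    kappa 0 s ω (Ioc a b) = kappa M s ω (Ioc a b) := by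
  rw [kappa_split M s ω measurableSet_Ioc]
  have h0 : ∑' k : ℕ, ∑ m ∈ Finset.range M, bm k m (ω (k, m, s)) (Ioc a b) = 0 := by
    rw [ENNReal.tsum_eq_zero]
    intro k
    refine Finset.sum_eq_zero fun m hm => ?_
    rcases Nat.lt_or_ge k 2 with hk | hk
    · exact no_big hab h hk (Finset.mem_range.1 hm)
    · have h1 : bm k m (ω (k, m, s)) (Iic b) = 0 := by
        apply bm_Iic_eq_zero
        have : (2 : ℝ) ≤ k := by exact_mod_cast hk
        linarith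
      exact measure_mono_null Ioc_subset_Iic_self h1
  rw [h0, zero_add]

/-- the variation of the small jumps -/
noncomputable def vv (M : ℕ) (ω : Om) (t : ℝ) : ℝ :=
  (kappa M true ω (Ioc 0 t)).toReal + (kappa M false ω (Ioc 0 t)).toReal

theorem vv_nonneg (M : ℕ) (ω : Om) (t : ℝ) : 0 ≤ vv M ω t := by unfold vv; positivity

theorem vv_mono (M : ℕ) {ω : Om} (hg : Good ω) : Monotone (vv M ω) := by
  intro a b hab
  unfold vv
  refine add_le_add ?_ ?_
  · exact ENNReal.toReal_mono (kappa_Ioc_ne hg _ _) (measure_mono (Ioc_subset_Ioc_right hab))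
  · exact ENNReal.toReal_mono (kappa_Ioc_ne hg _ _) (measure_mono (Ioc_subset_Ioc_right hab))

theorem X_diff_le {M : ℕ} {ω : Om} (hg : Good ω) {a b : ℝ} (ha : 0 ≤ a) (hab : a ≤ b) (hb : b ≤ 1)
    (h : nb M ω a = nb M ω b) : |X b ω - X a ω| ≤ vv M ω b - vv M ω a := by
  rw [X_sub hg ha hab, kappa_small hab hb h, kappa_small hab hb h]
  unfold vv
  have e1 := kappa_sub (M := M) (s := true) hg ha hab
  have e2 := kappa_sub (M := M) (s := false) hg ha hab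
  have e3 : (kappa M true ω (Ioc 0 b)).toReal + (kappa M false ω (Ioc 0 b)).toReal -
      ((kappa M true ω (Ioc 0 a)).toReal + (kappa M false ω (Ioc 0 a)).toReal) =
      (kappa M true ω (Ioc a b)).toReal + (kappa M false ω (Ioc a b)).toReal := by
    rw [← e1, ← e2]; ring
  rw [e3]
  have p1 : 0 ≤ (kappa M true ω (Ioc a b)).toReal := ENNReal.toReal_nonneg
  have p2 : 0 ≤ (kappa M false ω (Ioc a b)).toReal := ENNReal.toReal_nonneg
  rw [abs_le]
  constructor <;> linarith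

/-- the covering number -/
noncomputable def nn (M : ℕ) (ω : Om) (t : ℝ) : ℕ := nb M ω t + ⌊vv M ω t * (M:ℝ) ^ 2⌋₊

theorem X_close_aux {M : ℕ} (hM : 0 < M) {ω : Om} (hg : Good ω) {a b : ℝ} (ha : 0 ≤ a)
    (hab : a ≤ b) (hb : b ≤ 1) (h : nn M ω a = nn M ω b) : |X b ω - X a ω| ≤ ((M : ℝ) ^ 2)⁻¹ := by
  have hM0 : (0 : ℝ) < (M:ℝ) ^ 2 := by positivity
  have h1 := nb_mono M ω hab
  have h2 : ⌊vv M ω a * (M:ℝ) ^ 2⌋₊ ≤ ⌊vv M ω b * (M:ℝ) ^ 2⌋₊ :=
    Nat.floor_mono (mul_le_mul_of_nonneg_right (vv_mono M hg hab) hM0.le)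
  unfold nn at h
  have h3 : nb M ω a = nb M ω b := by omega
  have h4 : ⌊vv M ω a * (M:ℝ) ^ 2⌋₊ = ⌊vv M ω b * (M:ℝ) ^ 2⌋₊ := by omega
  refine (X_diff_le hg ha hab hb h3).trans ?_
  have h5 := Nat.floor_le (mul_nonneg (vv_nonneg M ω a) hM0.le)
  have h6 := Nat.lt_floor_add_one (vv M ω b * (M:ℝ) ^ 2)
  rw [← h4] at h6
  rw [← one_div, le_div_iff₀ hM0]
  linarith

theorem X_close {M : ℕ} (hM : 0 < M) {ω : Om} (hg : Good ω) {a b : ℝ} (ha : a ∈ Icc (0:ℝ) 1)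
    (hb : b ∈ Icc (0:ℝ) 1) (h : nn M ω a = nn M ω b) : |X b ω - X a ω| ≤ ((M : ℝ) ^ 2)⁻¹ := by
  rcases le_total a b with hab | hab
  · exact X_close_aux hM hg ha.1 hab hb.2 h
  · rw [abs_sub_comm]
    exact X_close_aux hM hg hb.1 hab ha.2 h.symm

theorem kappa_one_le (M : ℕ) (s : Bool) (ω : Om) :
    kappa M s ω (Ioc 0 1) ≤ ∑ k ∈ Finset.range 2, tail M k s ω := by
  rw [kappa_apply' M s ω measurableSet_Ioc]
  rw [tsum_eq_sum (s := Finset.range 2)]
  · refine Finset.sum_le_sum fun k _ => ?_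
    unfold tail
    exact ENNReal.tsum_le_tsum fun m => bm_le _ _ _ measurableSet_Ioc
  · intro k hk
    rw [Finset.mem_range, not_lt] at hk
    rw [ENNReal.tsum_eq_zero]
    intro m
    have h1 : bm k (m + M) (ω (k, m + M, s)) (Iic 1) = 0 := by
      apply bm_Iic_eq_zero
      have : (2 : ℝ) ≤ k := by exact_mod_cast hk
      linarith
    exact measure_mono_null Ioc_subset_Iic_self h1

/-- upper bound for the covering number -/
noncomputable def LL (M : ℕ) (ω : Om) : ℝ≥0∞ :=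
  ∑ k ∈ Finset.range 2, ∑ s : Bool, ((∑ m ∈ Finset.range M, ((ω (k, m, s)).1 : ℝ≥0∞)) +
    (M : ℝ≥0∞) ^ 2 * tail M k s ω)

theorem measurable_LL (M : ℕ) : Measurable (LL M) := by
  unfold LL
  refine Finset.measurable_sum _ fun k _ => Finset.measurable_sum _ fun s _ => ?_
  refine Measurable.add (Finset.measurable_sum _ fun m _ => ?_) ((measurable_tail M k s).const_mul _)
  have h : Measurable (fun b : Blk => (b.1 : ℝ≥0∞)) :=
    (measurable_from_top (f := fun n : ℕ => (n : ℝ≥0∞))).comp measurable_fst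
  exact h.comp (measurable_pi_apply _)

theorem nn_le {M : ℕ} {ω : Om} (hg : Good ω) {t : ℝ} (ht : t ≤ 1) : (nn M ω t : ℝ≥0∞) ≤ LL M ω := by
  have hle : vv M ω t ≤ vv M ω 1 := vv_mono M hg ht
  have h1 : (⌊vv M ω t * (M:ℝ) ^ 2⌋₊ : ℝ≥0∞) ≤ (M : ℝ≥0∞) ^ 2 * ∑ s : Bool, kappa M s ω (Ioc 0 1) := by
    have hfl : (⌊vv M ω t * (M:ℝ) ^ 2⌋₊ : ℝ) ≤ vv M ω 1 * (M:ℝ) ^ 2 :=
      (Nat.floor_le (mul_nonneg (vv_nonneg M ω t) (by positivity))).trans
        (mul_le_mul_of_nonneg_right hle (by positivity))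
    have hfin : (M : ℝ≥0∞) ^ 2 * ∑ s : Bool, kappa M s ω (Ioc 0 1) ≠ ⊤ := by
      refine ENNReal.mul_ne_top (by simp) ?_
      rw [Fintype.sum_bool]
      exact ENNReal.add_ne_top.2 ⟨kappa_Ioc_ne hg _ _, kappa_Ioc_ne hg _ _⟩
    have hto : ((M : ℝ≥0∞) ^ 2 * ∑ s : Bool, kappa M s ω (Ioc 0 1)).toReal =
        vv M ω 1 * (M:ℝ) ^ 2 := by
      rw [ENNReal.toReal_mul, Fintype.sum_bool, ENNReal.toReal_add (kappa_Ioc_ne hg _ _)
        (kappa_Ioc_ne hg _ _)]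
      unfold vv
      simp
      ring
    rw [← ENNReal.ofReal_toReal hfin, hto, ← ENNReal.ofReal_natCast]
    exact ENNReal.ofReal_le_ofReal hfl
  have h2 : (nb M ω t : ℝ≥0∞) ≤ ((NB M ω : ℕ) : ℝ≥0∞) := by exact_mod_cast nb_le M ω t
  unfold nn
  rw [Nat.cast_add]
  refine (add_le_add h2 h1).trans ?_
  have h3 : ∀ s, kappa M s ω (Ioc 0 1) ≤ ∑ k ∈ Finset.range 2, tail M k s ω := fun s =>
    kappa_one_le M s ω
  have h4 : (M : ℝ≥0∞) ^ 2 * ∑ s : Bool, kappa M s ω (Ioc 0 1) ≤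
      (M : ℝ≥0∞) ^ 2 * ∑ s : Bool, ∑ k ∈ Finset.range 2, tail M k s ω := by
    gcongr with s _
    exact h3 s
  refine (add_le_add le_rfl h4).trans (le_of_eq ?_)
  unfold LL NB
  push_cast
  rw [Finset.sum_comm (s := (Finset.univ : Finset Bool)), Finset.mul_sum, ← Finset.sum_add_distrib]
  refine Finset.sum_congr rfl fun k _ => ?_
  rw [Finset.mul_sum, ← Finset.sum_add_distrib]

theorem lintegral_LL (r : ℝ≥0) {M : ℕ} (hM : 0 < M) :
    ∫⁻ ω, LL M ω ∂(PP r) ≤ 12 * r * M := by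
  unfold LL
  have hm1 : ∀ p : ℕ × ℕ × Bool, Measurable (fun ω : Om => ((ω p).1 : ℝ≥0∞)) := by
    intro p
    have h : Measurable (fun b : Blk => (b.1 : ℝ≥0∞)) :=
      (measurable_from_top (f := fun n : ℕ => (n : ℝ≥0∞))).comp measurable_fst
    exact h.comp (measurable_pi_apply _)
  have hterm : ∀ (k : ℕ) (s : Bool), ∫⁻ ω : Om, ((∑ m ∈ Finset.range M, ((ω (k, m, s)).1 : ℝ≥0∞)) +
      (M : ℝ≥0∞) ^ 2 * tail M k s ω) ∂(PP r) ≤ 3 * r * M := by
    intro k s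
    rw [lintegral_add_left (Finset.measurable_sum _ fun m _ => hm1 _),
      lintegral_finsetSum _ (fun m _ => hm1 _),
      lintegral_const_mul _ (measurable_tail M k s)]
    simp_rw [lintegral_count]
    rw [Finset.sum_const, Finset.card_range, nsmul_eq_mul]
    have h1 := lintegral_tail r hM k s
    have hM0 : (0 : ℝ) < M := by exact_mod_cast hM
    have h2 : (M : ℝ≥0∞) ^ 2 * (ENNReal.ofReal (2 / M) * r) = 2 * r * M := by
      have : (M : ℝ≥0∞) = ENNReal.ofReal M := (ENNReal.ofReal_natCast M).symm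
      rw [this, ← ENNReal.ofReal_pow hM0.le, ← mul_assoc, ← ENNReal.ofReal_mul (by positivity)]
      have e : (M:ℝ) ^ 2 * (2 / M) = 2 * M := by field_simp
      rw [e, ENNReal.ofReal_mul (by norm_num)]
      simp
      ring
    calc (M : ℝ≥0∞) * (r : ℝ≥0∞) + (M : ℝ≥0∞) ^ 2 * ∫⁻ ω, tail M k s ω ∂(PP r)
        ≤ (M : ℝ≥0∞) * (r : ℝ≥0∞) + (M : ℝ≥0∞) ^ 2 * (ENNReal.ofReal (2 / M) * (r : ℝ≥0∞)) := by
          gcongr
      _ = 3 * (r : ℝ≥0∞) * M := by rw [h2]; ring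
  have hmt : ∀ (k : ℕ) (s : Bool), Measurable (fun ω : Om =>
      (∑ m ∈ Finset.range M, ((ω (k, m, s)).1 : ℝ≥0∞)) + (M : ℝ≥0∞) ^ 2 * tail M k s ω) :=
    fun k s => (Finset.measurable_sum _ fun m _ => hm1 _).add ((measurable_tail M k s).const_mul _)
  rw [lintegral_finsetSum _ (fun k _ => Finset.measurable_sum _ fun s _ => hmt k s)]
  calc ∑ k ∈ Finset.range 2, ∫⁻ ω : Om, ∑ s : Bool,
        ((∑ m ∈ Finset.range M, ((ω (k, m, s)).1 : ℝ≥0∞)) + (M : ℝ≥0∞) ^ 2 * tail M k s ω) ∂(PP r)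
      = ∑ k ∈ Finset.range 2, ∑ s : Bool, ∫⁻ ω : Om,
        ((∑ m ∈ Finset.range M, ((ω (k, m, s)).1 : ℝ≥0∞)) + (M : ℝ≥0∞) ^ 2 * tail M k s ω) ∂(PP r) := by
        refine Finset.sum_congr rfl fun k _ => ?_
        rw [lintegral_finsetSum _ (fun s _ => hmt k s)]
    _ ≤ ∑ k ∈ Finset.range 2, ∑ s : Bool, 3 * (r : ℝ≥0∞) * M :=
        Finset.sum_le_sum fun k _ => Finset.sum_le_sum fun s _ => hterm k s
    _ = _ := by
        simp
        ring

/-- Almost surely the covering number is infinitely often at most linear. -/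
theorem ae_cover (r : ℝ≥0) : ∀ᵐ ω ∂(PP r), ∃ C : ℝ, 0 < C ∧
    ∃ᶠ M : ℕ in atTop, LL M ω ≤ ENNReal.ofReal (C * M) := by
  have h1 : ∫⁻ ω, liminf (fun M : ℕ => LL (M + 1) ω / (M + 1 : ℕ)) atTop ∂(PP r) ≤ 12 * r := by
    refine (lintegral_liminf_le (fun M => (measurable_LL (M + 1)).div_const _)).trans ?_
    refine (liminf_le_liminf (v := fun _ : ℕ => (12 * r : ℝ≥0∞)) (Eventually.of_forall fun M => ?_)).trans
      (by simp)
    have hM : ((M + 1 : ℕ) : ℝ≥0∞) ≠ 0 := by simp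
    have hM' : ((M + 1 : ℕ) : ℝ≥0∞) ≠ ⊤ := ENNReal.natCast_ne_top _
    simp_rw [ENNReal.div_eq_inv_mul]
    rw [lintegral_const_mul _ (measurable_LL _)]
    calc ((M + 1 : ℕ) : ℝ≥0∞)⁻¹ * ∫⁻ ω, LL (M + 1) ω ∂(PP r)
        ≤ ((M + 1 : ℕ) : ℝ≥0∞)⁻¹ * (12 * r * (M + 1 : ℕ)) := by
          gcongr
          exact lintegral_LL r (Nat.succ_pos M)
      _ = 12 * r := by
          rw [mul_comm (12 * (r:ℝ≥0∞)), ← mul_assoc, ENNReal.inv_mul_cancel hM hM', one_mul]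
  have hmeas : Measurable (fun ω : Om => liminf (fun M : ℕ => LL (M + 1) ω / (M + 1 : ℕ)) atTop) :=
    Measurable.liminf fun M => (measurable_LL (M + 1)).div_const _
  have h2 := ae_lt_top hmeas (lt_of_le_of_lt h1 (ENNReal.mul_lt_top (by simp) ENNReal.coe_lt_top)).ne
  filter_upwards [h2] with ω hω
  obtain ⟨c, hc1, hc2⟩ := exists_between hω
  have h3 := frequently_lt_of_liminf_lt (by isBoundedDefault) hc1
  refine ⟨c.toReal + 1, by positivity, ?_⟩
  have h4 : ∃ᶠ M : ℕ in atTop, LL (M + 1) ω ≤ ENNReal.ofReal ((c.toReal + 1) * (M + 1 : ℕ)) := by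
    refine h3.mono fun M hM => ?_
    have hM0 : ((M + 1 : ℕ) : ℝ≥0∞) ≠ 0 := by simp
    have hM' : ((M + 1 : ℕ) : ℝ≥0∞) ≠ ⊤ := ENNReal.natCast_ne_top _
    rw [ENNReal.div_lt_iff (Or.inl hM0) (Or.inl hM')] at hM
    refine hM.le.trans ?_
    rw [ENNReal.ofReal_mul (by positivity), ENNReal.ofReal_natCast]
    gcongr
    calc c = ENNReal.ofReal c.toReal := (ENNReal.ofReal_toReal hc2.ne).symm
      _ ≤ _ := ENNReal.ofReal_le_ofReal (by linarith)
  rw [Filter.frequently_atTop] at h4 ⊢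
  intro a
  obtain ⟨b, hb, hb2⟩ := h4 a
  exact ⟨b + 1, by omega, by exact_mod_cast hb2⟩

end Pool.Agent.P8H97.ST
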