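import Mathlib

set_option autoImplicit false

/-!
# Fourier decay and covering numbers
-/

open MeasureTheory ProbabilityTheory Set Filter Topology
open scoped NNReal ENNReal

namespace Pool.Agent.P8H97.ST

/-- the Gaussian energy as an average of the squared Fourier transform -/
theorem energy_eq (ν : Measure ℝ) [IsProbabilityMeasure ν] (a : ℝ) :
    ((∫ p : ℝ × ℝ, Real.exp (-(a * (p.1 - p.2)) ^ 2 / 2) ∂(ν.prod ν) : ℝ) : ℂ) =
      ((∫ ξ, ‖∫ y, Complex.exp (((a * ξ * y : ℝ) : ℂ) * Complex.I) ∂ν‖ ^ 2 ∂(gaussianReal 0 1) : ℝ) : ℂ) := by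
  have h1 : ∀ u : ℝ, ((Real.exp (-(a * u) ^ 2 / 2) : ℝ) : ℂ) =
      ∫ ξ, Complex.exp (((a * ξ * u : ℝ) : ℂ) * Complex.I) ∂(gaussianReal 0 1) := by
    intro u
    have h := charFun_gaussianReal (μ := 0) (v := 1) (a * u)
    rw [charFun_apply_real] at h
    have e : (fun ξ : ℝ => Complex.exp (((a * ξ * u : ℝ) : ℂ) * Complex.I)) =
        fun ξ : ℝ => Complex.exp (((a * u : ℝ) : ℂ) * ξ * Complex.I) := by
      funext ξ
      congr 2
      push_cast
      ring
    rw [e, h]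
    push_cast
    congr 1
    simp
    ring
  have h2 : ∀ ξ : ℝ, ((‖∫ y, Complex.exp (((a * ξ * y : ℝ) : ℂ) * Complex.I) ∂ν‖ ^ 2 : ℝ) : ℂ) =
      ∫ p : ℝ × ℝ, Complex.exp (((a * ξ * (p.1 - p.2) : ℝ) : ℂ) * Complex.I) ∂(ν.prod ν) := by
    intro ξ
    have e1 : ((‖∫ y, Complex.exp (((a * ξ * y : ℝ) : ℂ) * Complex.I) ∂ν‖ ^ 2 : ℝ) : ℂ) =
        (∫ y, Complex.exp (((a * ξ * y : ℝ) : ℂ) * Complex.I) ∂ν) *
        (starRingEnd ℂ) (∫ y, Complex.exp (((a * ξ * y : ℝ) : ℂ) * Complex.I) ∂ν) := by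
      rw [Complex.mul_conj, Complex.normSq_eq_norm_sq]
    rw [e1, ← integral_conj, ← integral_prod_mul]
    refine integral_congr_ae (ae_of_all _ fun p => ?_)
    simp only
    rw [← Complex.exp_conj, ← Complex.exp_add]
    congr 1
    simp only [map_mul, Complex.conj_ofReal, Complex.conj_I]
    push_cast
    ring
  have e1 : ((∫ p : ℝ × ℝ, Real.exp (-(a * (p.1 - p.2)) ^ 2 / 2) ∂(ν.prod ν) : ℝ) : ℂ) =
      ∫ p : ℝ × ℝ, ((Real.exp (-(a * (p.1 - p.2)) ^ 2 / 2) : ℝ) : ℂ) ∂(ν.prod ν) :=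
    integral_ofReal.symm
  have e2 : ((∫ ξ, ‖∫ y, Complex.exp (((a * ξ * y : ℝ) : ℂ) * Complex.I) ∂ν‖ ^ 2
      ∂(gaussianReal 0 1) : ℝ) : ℂ) =
      ∫ ξ, ((‖∫ y, Complex.exp (((a * ξ * y : ℝ) : ℂ) * Complex.I) ∂ν‖ ^ 2 : ℝ) : ℂ)
        ∂(gaussianReal 0 1) := integral_ofReal.symm
  rw [e1, e2]
  simp_rw [h1, h2]
  have hint : Integrable (Function.uncurry fun (p : ℝ × ℝ) (ξ : ℝ) =>
      Complex.exp (((a * ξ * (p.1 - p.2) : ℝ) : ℂ) * Complex.I))
      ((ν.prod ν).prod (gaussianReal 0 1)) := by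
    refine Integrable.of_bound ?_ 1 (ae_of_all _ fun q => ?_)
    · apply Measurable.aestronglyMeasurable
      unfold Function.uncurry
      fun_prop
    · unfold Function.uncurry
      rw [Complex.norm_exp_ofReal_mul_I]
  exact integral_integral_swap hint

theorem energy_lower (ν : Measure ℝ) [IsProbabilityMeasure ν] (c : ℕ → ℝ) {δ : ℝ} (hδ : 0 < δ)
    (L : ℕ) (h : ν (⋃ j ∈ Finset.range (L + 1), Icc (c j - δ) (c j + δ))ᶜ = 0) :
    Real.exp (-2) / (L + 1) ≤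
      ∫ p : ℝ × ℝ, Real.exp (-(δ⁻¹ * (p.1 - p.2)) ^ 2 / 2) ∂(ν.prod ν) := by
  set I : ℕ → Set ℝ := fun j => Icc (c j - δ) (c j + δ) with hI
  set D : ℕ → Set ℝ := disjointed I with hD
  have hDm : ∀ j, MeasurableSet (D j) := fun j => MeasurableSet.disjointed (fun _ => measurableSet_Icc) j
  have hDI : ∀ j, D j ⊆ I j := fun j => disjointed_subset I j
  have hdisj : Pairwise (Function.onFun Disjoint D) := disjoint_disjointed I
  have hcov : (⋃ j ∈ Finset.range (L + 1), I j) ⊆ ⋃ j ∈ Finset.range (L + 1), D j := by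
    intro x hx
    simp only [mem_iUnion, Finset.mem_range, exists_prop] at hx ⊢
    obtain ⟨j, hj, hxj⟩ := hx
    have h1 : x ∈ partialSups I j := by
      rw [partialSups_eq_biUnion_range]
      exact mem_biUnion (Finset.self_mem_range_succ j) hxj
    rw [← partialSups_disjointed, partialSups_eq_biUnion_range] at h1
    simp only [mem_iUnion, Finset.mem_range, exists_prop] at h1
    obtain ⟨i, hi, hxi⟩ := h1
    exact ⟨i, by omega, hxi⟩
  -- total mass
  have hsum : (1 : ℝ) ≤ ∑ j ∈ Finset.range (L + 1), ν.real (D j) := by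
    have h1 : ν.real (⋃ j ∈ Finset.range (L + 1), I j) = 1 := by
      have hm : MeasurableSet (⋃ j ∈ Finset.range (L + 1), I j) :=
        Finset.measurableSet_biUnion _ fun _ _ => measurableSet_Icc
      have := prob_compl_eq_zero_iff (μ := ν) hm
      rw [measureReal_def, this.1 h]
      simp
    rw [← h1]
    exact (measureReal_mono hcov (measure_ne_top _ _)).trans (measureReal_biUnion_finset_le _ _)
  have hcs := sq_sum_le_card_mul_sum_sq (s := Finset.range (L + 1)) (f := fun j => ν.real (D j))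
  rw [Finset.card_range] at hcs
  have hsq : (1 : ℝ) / (L + 1) ≤ ∑ j ∈ Finset.range (L + 1), ν.real (D j) ^ 2 := by
    rw [div_le_iff₀ (by positivity)]
    have : (1 : ℝ) ≤ (∑ j ∈ Finset.range (L + 1), ν.real (D j)) ^ 2 := by nlinarith
    push_cast at hcs
    linarith
  set S : Set (ℝ × ℝ) := ⋃ j ∈ Finset.range (L + 1), D j ×ˢ D j with hS
  have hSm : MeasurableSet S :=
    Finset.measurableSet_biUnion _ fun j _ => (hDm j).prod (hDm j)
  have hSν : (ν.prod ν).real S = ∑ j ∈ Finset.range (L + 1), ν.real (D j) ^ 2 := by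
    rw [hS, measureReal_biUnion_finset]
    · refine Finset.sum_congr rfl fun j _ => ?_
      rw [measureReal_prod_prod]
      ring
    · intro i _ j _ hij
      rw [Function.onFun, Set.disjoint_prod]
      exact Or.inl (hdisj hij)
    · intro j _
      exact (hDm j).prod (hDm j)
  have hfint : Integrable (fun p : ℝ × ℝ => Real.exp (-(δ⁻¹ * (p.1 - p.2)) ^ 2 / 2)) (ν.prod ν) := by
    refine Integrable.of_bound ?_ 1 (ae_of_all _ fun q => ?_)
    · apply Measurable.aestronglyMeasurable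
      fun_prop
    · rw [Real.norm_eq_abs, Real.abs_exp, Real.exp_le_one_iff]
      nlinarith [sq_nonneg (δ⁻¹ * (q.1 - q.2))]
  calc Real.exp (-2) / (L + 1) = Real.exp (-2) * (1 / (L + 1)) := by ring
    _ ≤ Real.exp (-2) * (ν.prod ν).real S := by
        rw [hSν]
        exact mul_le_mul_of_nonneg_left hsq (Real.exp_pos _).le
    _ = ∫ _p in S, Real.exp (-2) ∂(ν.prod ν) := by
        rw [setIntegral_const, smul_eq_mul, mul_comm]
    _ ≤ ∫ p in S, Real.exp (-(δ⁻¹ * (p.1 - p.2)) ^ 2 / 2) ∂(ν.prod ν) := by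
        refine setIntegral_mono_on (integrableOn_const (by simp)) hfint.integrableOn hSm ?_
        intro p hp
        apply Real.exp_le_exp.2
        rw [hS] at hp
        simp only [mem_iUnion, Finset.mem_range, exists_prop, mem_prod] at hp
        obtain ⟨j, -, h1, h2⟩ := hp
        have h1' := hDI j h1
        have h2' := hDI j h2
        rw [hI] at h1' h2'
        simp only [mem_Icc] at h1' h2'
        have h3 : |p.1 - p.2| ≤ 2 * δ := by
          rw [abs_le]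
          constructor <;> linarith [h1'.1, h1'.2, h2'.1, h2'.2]
        have h4 : (δ⁻¹ * (p.1 - p.2)) ^ 2 ≤ 4 := by
          have h5 : |δ⁻¹ * (p.1 - p.2)| ≤ 2 := by
            rw [abs_mul, abs_of_pos (inv_pos.2 hδ)]
            calc δ⁻¹ * |p.1 - p.2| ≤ δ⁻¹ * (2 * δ) :=
                  mul_le_mul_of_nonneg_left h3 (inv_pos.2 hδ).le
              _ = 2 := by field_simp
          rw [← sq_abs]
          nlinarith [abs_nonneg (δ⁻¹ * (p.1 - p.2))]
        linarith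
    _ ≤ _ := setIntegral_le_integral hfint (ae_of_all _ fun p => (Real.exp_pos _).le)

theorem gaussian_le : gaussianReal 0 1 ≤ volume := by
  rw [Measure.le_iff]
  intro s hs
  rw [gaussianReal_apply 0 one_ne_zero s]
  calc ∫⁻ x in s, gaussianPDF 0 1 x ≤ ∫⁻ _x in s, 1 := by
        refine lintegral_mono fun x => ?_
        unfold gaussianPDF
        rw [← ENNReal.ofReal_one]
        apply ENNReal.ofReal_le_ofReal
        unfold gaussianPDFReal
        have h1 : (√(2 * Real.pi * ((1 : ℝ≥0) : ℝ)))⁻¹ ≤ 1 := by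
          apply inv_le_one_of_one_le₀
          rw [Real.one_le_sqrt]
          push_cast
          linarith [Real.pi_gt_three]
        have h2 : Real.exp (-(x - 0) ^ 2 / (2 * ((1 : ℝ≥0) : ℝ))) ≤ 1 := by
          rw [Real.exp_le_one_iff]
          push_cast
          nlinarith [sq_nonneg (x - 0)]
        exact mul_le_one₀ h1 (Real.exp_pos _).le h2
    _ = volume s := by simp

theorem integrable_abs_rpow : Integrable (fun ξ : ℝ => |ξ| ^ (-(3 / 4) : ℝ)) (gaussianReal 0 1) := by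
  have hmeas : Measurable (fun ξ : ℝ => |ξ| ^ (-(3 / 4) : ℝ)) := by fun_prop
  have h0 : IntegrableOn (fun ξ : ℝ => |ξ| ^ (-(3 / 4) : ℝ)) (Ioc 0 1) volume := by
    have h := (intervalIntegral.intervalIntegrable_rpow' (a := 0) (b := 1) (r := -(3 / 4)) (by norm_num)).1
    refine h.congr_fun (fun x hx => ?_) measurableSet_Ioc
    simp only
    rw [abs_of_pos hx.1]
  have h1 : IntegrableOn (fun ξ : ℝ => |ξ| ^ (-(3 / 4) : ℝ)) (Ico (-1) 0) volume := by
    have hp := Measure.measurePreserving_neg (volume : Measure ℝ)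
    have h := (hp.integrableOn_comp_preimage (Homeomorph.neg ℝ).measurableEmbedding
      (f := fun ξ : ℝ => |ξ| ^ (-(3 / 4) : ℝ)) (s := Ioc 0 1)).2 h0
    have e : (Neg.neg ⁻¹' Ioc (0:ℝ) 1) = Ico (-1) 0 := by
      ext x
      simp only [mem_preimage, mem_Ioc, mem_Ico]
      constructor
      · rintro ⟨h1, h2⟩; exact ⟨by linarith, by linarith⟩
      · rintro ⟨h1, h2⟩; exact ⟨by linarith, by linarith⟩
    rw [e] at h
    refine h.congr_fun (fun x _ => ?_) measurableSet_Ico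
    simp only [Function.comp_apply, abs_neg]
  have h2 : IntegrableOn (fun ξ : ℝ => |ξ| ^ (-(3 / 4) : ℝ)) (Icc (-1) 1) volume := by
    have h3 : IntegrableOn (fun ξ : ℝ => |ξ| ^ (-(3 / 4) : ℝ)) {0} volume := by
      simp
    refine ((h1.union h3).union h0).mono_set ?_
    intro x hx
    rcases lt_trichotomy x 0 with h | h | h
    · exact Or.inl (Or.inl ⟨hx.1, h⟩)
    · exact Or.inl (Or.inr h)
    · exact Or.inr ⟨h, hx.2⟩
  have h3 : IntegrableOn (fun ξ : ℝ => |ξ| ^ (-(3 / 4) : ℝ)) (Icc (-1) 1) (gaussianReal 0 1) := by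
    refine Integrable.mono_measure h2 ?_
    exact Measure.restrict_mono_measure gaussian_le _
  have h4 : IntegrableOn (fun ξ : ℝ => |ξ| ^ (-(3 / 4) : ℝ)) (Icc (-1) 1)ᶜ (gaussianReal 0 1) := by
    refine Integrable.of_bound hmeas.aestronglyMeasurable 1 ?_
    filter_upwards [ae_restrict_mem measurableSet_Icc.compl] with x hx
    have hx1 : 1 ≤ |x| := by
      by_contra hc
      push Not at hc
      rw [abs_lt] at hc
      exact hx ⟨hc.1.le, hc.2.le⟩
    rw [Real.norm_eq_abs, abs_of_nonneg (by positivity)]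
    exact Real.rpow_le_one_of_one_le_of_nonpos hx1 (by norm_num)
  have := h3.union h4
  rwa [union_compl_self, integrableOn_univ] at this

/-- Fourier decay forces many intervals. -/
theorem decay_cover (ν : Measure ℝ) [IsProbabilityMeasure ν] {C : ℝ}
    (hC : ∀ ξ : ℝ, 1 ≤ |ξ| → ‖∫ y, Complex.exp (((ξ * y : ℝ) : ℂ) * Complex.I) ∂ν‖ ≤
      C * |ξ| ^ (-(3 / 4) / 2 : ℝ)) :
    ∃ K : ℝ, ∀ (c : ℕ → ℝ) (δ : ℝ) (L : ℕ), 0 < δ →
      ν (⋃ j ∈ Finset.range (L + 1), Icc (c j - δ) (c j + δ))ᶜ = 0 →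
      Real.exp (-2) / (L + 1) ≤ K * δ ^ (3 / 4 : ℝ) := by
  set C1 : ℝ := max C 1 with hC1
  have hC1' : 1 ≤ C1 := le_max_right _ _
  have hdec : ∀ ξ : ℝ, ξ ≠ 0 → ‖∫ y, Complex.exp (((ξ * y : ℝ) : ℂ) * Complex.I) ∂ν‖ ^ 2 ≤
      C1 ^ 2 * |ξ| ^ (-(3 / 4) : ℝ) := by
    intro ξ hξ
    have hpos : 0 < |ξ| := abs_pos.2 hξ
    have h1 : ‖∫ y, Complex.exp (((ξ * y : ℝ) : ℂ) * Complex.I) ∂ν‖ ≤
        C1 * |ξ| ^ (-(3 / 4) / 2 : ℝ) := by
      rcases le_or_gt 1 |ξ| with h | h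
      · refine (hC ξ h).trans ?_
        exact mul_le_mul_of_nonneg_right (le_max_left _ _) (by positivity)
      · have h2 : ‖∫ y, Complex.exp (((ξ * y : ℝ) : ℂ) * Complex.I) ∂ν‖ ≤ 1 := by
          refine (norm_integral_le_integral_norm _).trans ?_
          simp_rw [Complex.norm_exp_ofReal_mul_I]
          simp
        have h3 : (1:ℝ) ≤ |ξ| ^ (-(3 / 4) / 2 : ℝ) :=
          Real.one_le_rpow_of_pos_of_le_one_of_nonpos hpos h.le (by norm_num)
        nlinarith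
    have h2 : (|ξ| ^ (-(3 / 4) / 2 : ℝ)) ^ 2 = |ξ| ^ (-(3 / 4) : ℝ) := by
      rw [← Real.rpow_natCast, ← Real.rpow_mul hpos.le]
      norm_num
    calc ‖∫ y, Complex.exp (((ξ * y : ℝ) : ℂ) * Complex.I) ∂ν‖ ^ 2
        ≤ (C1 * |ξ| ^ (-(3 / 4) / 2 : ℝ)) ^ 2 := pow_le_pow_left₀ (norm_nonneg _) h1 2
      _ = _ := by rw [mul_pow, h2]
  refine ⟨C1 ^ 2 * ∫ ξ, |ξ| ^ (-(3 / 4) : ℝ) ∂(gaussianReal 0 1), ?_⟩
  intro c δ L hδ hcov
  refine (energy_lower ν c hδ L hcov).trans ?_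
  have h1 := energy_eq ν δ⁻¹
  have h2 : ∫ p : ℝ × ℝ, Real.exp (-(δ⁻¹ * (p.1 - p.2)) ^ 2 / 2) ∂(ν.prod ν) =
      ∫ ξ, ‖∫ y, Complex.exp (((δ⁻¹ * ξ * y : ℝ) : ℂ) * Complex.I) ∂ν‖ ^ 2 ∂(gaussianReal 0 1) := by
    exact_mod_cast h1
  rw [h2]
  have h3 : ∫ ξ, ‖∫ y, Complex.exp (((δ⁻¹ * ξ * y : ℝ) : ℂ) * Complex.I) ∂ν‖ ^ 2 ∂(gaussianReal 0 1) ≤
      ∫ ξ, C1 ^ 2 * δ ^ (3 / 4 : ℝ) * |ξ| ^ (-(3 / 4) : ℝ) ∂(gaussianReal 0 1) := by
    apply integral_mono_of_nonneg
    · exact ae_of_all _ fun ξ => by positivity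
    · exact integrable_abs_rpow.const_mul _
    · have hne : ∀ᵐ ξ ∂(gaussianReal 0 1), ξ ≠ 0 := by
        have : (gaussianReal 0 1) ≪ volume := Measure.absolutelyContinuous_of_le gaussian_le
        exact this.ae_le (Measure.ae_ne volume 0)
      filter_upwards [hne] with ξ hξ
      refine (hdec (δ⁻¹ * ξ) (mul_ne_zero (inv_pos.2 hδ).ne' hξ)).trans (le_of_eq ?_)
      rw [abs_mul, abs_of_pos (inv_pos.2 hδ), Real.mul_rpow (inv_pos.2 hδ).le (abs_nonneg _)]
      have : (δ⁻¹) ^ (-(3 / 4) : ℝ) = δ ^ (3 / 4 : ℝ) := by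
        rw [Real.inv_rpow hδ.le, Real.rpow_neg hδ.le, inv_inv]
      rw [this]
      ring
  refine h3.trans (le_of_eq ?_)
  rw [integral_const_mul]
  ring

end Pool.Agent.P8H97.ST
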