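import Pool.Agent.P8H97.ST.Cover
import Pool.Agent.P8H97.ST.Energy

set_option autoImplicit false

/-!
# The graph carries no measure with Fourier decay of order `3/4`
-/

open MeasureTheory ProbabilityTheory Set Filter Topology
open scoped NNReal ENNReal

namespace Pool.Agent.P8H97.ST

theorem pow_aux {M : ℕ} (hM : 0 < M) : (((M : ℝ) ^ 2)⁻¹) ^ (3 / 4 : ℝ) * M = (M : ℝ) ^ (-(1 / 2) : ℝ) := by
  have h0 : (0 : ℝ) < M := by exact_mod_cast hM
  have h1 : ((M : ℝ) ^ 2)⁻¹ = (M : ℝ) ^ (-2 : ℝ) := by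
    rw [Real.rpow_neg h0.le]
    norm_cast
  rw [h1, ← Real.rpow_mul h0.le]
  nth_rw 2 [← Real.rpow_one (M : ℝ)]
  rw [← Real.rpow_add h0]
  norm_num

/-- The range of a path with few short intervals does not carry a measure with Fourier decay
of order `3/4`. -/
theorem no_measure {ω : Om} (hg : Good ω) {C' : ℝ} (hC'0 : 0 < C')
    (hC' : ∃ᶠ M : ℕ in atTop, LL M ω ≤ ENNReal.ofReal (C' * M))
    (μ : Measure (ℝ × ℝ)) [IsProbabilityMeasure μ] (K : Set (ℝ × ℝ))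
    (hK : K ⊆ {p : ℝ × ℝ | p.1 ∈ Set.Icc (0 : ℝ) 1 ∧ p.2 = X p.1 ω}) (hμ : μ Kᶜ = 0) {C : ℝ}
    (hC : ∀ ξ : ℝ × ℝ, 1 ≤ ‖ξ‖ →
      ‖∫ p, Complex.exp (((ξ.1 * p.1 + ξ.2 * p.2 : ℝ) : ℂ) * Complex.I) ∂μ‖
        ≤ C * ‖ξ‖ ^ (-(3 / 4) / 2 : ℝ)) : False := by
  set ν : Measure ℝ := μ.map Prod.snd with hν
  have : IsProbabilityMeasure ν := Measure.isProbabilityMeasure_map measurable_snd.aemeasurable
  have hdec : ∀ ξ : ℝ, 1 ≤ |ξ| → ‖∫ y, Complex.exp (((ξ * y : ℝ) : ℂ) * Complex.I) ∂ν‖ ≤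
      C * |ξ| ^ (-(3 / 4) / 2 : ℝ) := by
    intro ξ hξ
    have hn : ‖((0 : ℝ), ξ)‖ = |ξ| := by
      rw [Prod.norm_def]
      simp
    have h := hC (0, ξ) (by rw [hn]; exact hξ)
    rw [hn] at h
    rw [hν, integral_map measurable_snd.aemeasurable (by fun_prop)]
    simpa using h
  obtain ⟨Kc, hKc⟩ := decay_cover ν hdec
  -- the limit
  have hlim : Tendsto (fun M : ℕ => Kc * (C' + 2) * (M : ℝ) ^ (-(1 / 2) : ℝ)) atTop (𝓝 0) := by
    have h := (tendsto_rpow_neg_atTop (by norm_num : (0:ℝ) < 1 / 2)).comp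
      (tendsto_natCast_atTop_atTop (R := ℝ))
    have := h.const_mul (Kc * (C' + 2))
    rw [mul_zero] at this
    exact this
  have hev := hlim.eventually (gt_mem_nhds (Real.exp_pos (-2)))
  obtain ⟨M, hM1, hM2, hM3⟩ := (hC'.and_eventually (hev.and (eventually_ge_atTop 1))).exists
  have hM0 : 0 < M := hM3
  have hMr : (1 : ℝ) ≤ M := by exact_mod_cast hM3
  set δ : ℝ := ((M : ℝ) ^ 2)⁻¹ with hδ
  have hδ0 : 0 < δ := by positivity
  set L : ℕ := ⌊C' * M⌋₊ with hL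
  have hn : ∀ t ∈ Icc (0:ℝ) 1, nn M ω t ≤ L := by
    intro t ht
    have h1 := (nn_le (M := M) hg ht.2).trans hM1
    apply Nat.le_floor
    have h2 : ((nn M ω t : ℕ) : ℝ≥0∞) = ENNReal.ofReal (nn M ω t : ℝ) := (ENNReal.ofReal_natCast _).symm
    rw [h2] at h1
    exact (ENNReal.ofReal_le_ofReal_iff (by positivity)).1 h1
  classical
  set c : ℕ → ℝ := fun j => if h : ∃ t ∈ Icc (0:ℝ) 1, nn M ω t = j then X h.choose ω else 0 with hc
  have hcov : ν (⋃ j ∈ Finset.range (L + 1), Icc (c j - δ) (c j + δ))ᶜ = 0 := by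
    rw [hν, Measure.map_apply measurable_snd
      (Finset.measurableSet_biUnion _ fun _ _ => measurableSet_Icc).compl]
    refine measure_mono_null ?_ hμ
    intro p hp hpK
    apply hp
    obtain ⟨hp1, hp2⟩ := hK hpK
    have hex : ∃ t ∈ Icc (0:ℝ) 1, nn M ω t = nn M ω p.1 := ⟨p.1, hp1, rfl⟩
    have hcj : c (nn M ω p.1) = X hex.choose ω := by
      rw [hc]
      simp only
      rw [dif_pos hex]
    have hcl := X_close hM0 hg hex.choose_spec.1 hp1 hex.choose_spec.2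
    rw [← hcj, ← hp2, abs_le] at hcl
    simp only [mem_iUnion, Finset.mem_range, exists_prop, mem_Icc]
    exact ⟨nn M ω p.1, Nat.lt_succ_of_le (hn p.1 hp1), by linarith [hcl.1], by linarith [hcl.2]⟩
  have h1 := hKc c δ L hδ0 hcov
  have hL1 : (L : ℝ) + 1 ≤ (C' + 2) * M := by
    have := Nat.floor_le (by positivity : (0:ℝ) ≤ C' * M)
    rw [← hL] at this
    nlinarith
  have hLpos : (0 : ℝ) < (L : ℝ) + 1 := by positivity
  have hKpos : 0 < Kc * δ ^ (3 / 4 : ℝ) := lt_of_lt_of_le (by positivity) h1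
  rw [div_le_iff₀ hLpos] at h1
  have h2 : Kc * δ ^ (3 / 4 : ℝ) * (L + 1) ≤ Kc * δ ^ (3 / 4 : ℝ) * ((C' + 2) * M) :=
    mul_le_mul_of_nonneg_left hL1 hKpos.le
  have h3 : Kc * δ ^ (3 / 4 : ℝ) * ((C' + 2) * M) = Kc * (C' + 2) * (M : ℝ) ^ (-(1 / 2) : ℝ) := by
    rw [← pow_aux hM0]
    ring
  linarith

end Pool.Agent.P8H97.ST
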