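import Pool.Agent.P8H97.ST.Base

set_option autoImplicit false

/-!
# The jump measures of the process
-/

open MeasureTheory ProbabilityTheory Set Filter Topology
open scoped NNReal ENNReal

namespace Pool.Agent.P8H97.ST

/-- the time of a jump of the time block `k` -/
noncomputable def tau (k : ℕ) (v : Mark) : ℝ := k + min |v.1| 1

/-- the size of a jump of the rank block `m` -/
noncomputable def amp (m : ℕ) (v : Mark) : ℝ := ((m + |v.2|) ^ 2)⁻¹

theorem amp_nonneg (m : ℕ) (v : Mark) : 0 ≤ amp m v := by unfold amp; positivity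

theorem le_tau (k : ℕ) (v : Mark) : (k : ℝ) ≤ tau k v := by
  unfold tau
  have : 0 ≤ min |v.1| 1 := le_min (abs_nonneg _) zero_le_one
  linarith

theorem amp_le {m : ℕ} (hm : 0 < m) (v : Mark) : amp m v ≤ ((m : ℝ) ^ 2)⁻¹ := by
  unfold amp
  have h : (0 : ℝ) < m := by exact_mod_cast hm
  apply inv_anti₀ (by positivity)
  apply pow_le_pow_left₀ h.le
  linarith [abs_nonneg v.2]

theorem measurable_tau (k : ℕ) : Measurable (tau k) := by
  unfold tau
  have h : Measurable (fun v : Mark => |v.1|) := by fun_prop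
  exact (h.min measurable_const).const_add _

theorem measurable_amp (m : ℕ) : Measurable (amp m) := by
  unfold amp
  have h : Measurable (fun v : Mark => |v.2|) := by fun_prop
  exact ((h.const_add _).pow_const 2).inv

/-- the jump measure of a block -/
noncomputable def bm (k m : ℕ) (b : Blk) : Measure ℝ :=
  ∑ i ∈ Finset.range b.1, ENNReal.ofReal (amp m (b.2 i)) • Measure.dirac (tau k (b.2 i))

theorem bm_apply (k m : ℕ) (b : Blk) {A : Set ℝ} (hA : MeasurableSet A) :
    bm k m b A = ∑ i ∈ Finset.range b.1,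
      ENNReal.ofReal (amp m (b.2 i)) * A.indicator (fun _ => 1) (tau k (b.2 i)) := by
  unfold bm
  rw [Measure.finsetSum_apply]
  refine Finset.sum_congr rfl fun i _ => ?_
  rw [Measure.smul_apply, Measure.dirac_apply' _ hA, smul_eq_mul]
  rfl

/-- the mass of a block -/
noncomputable def mass (m : ℕ) (b : Blk) : ℝ≥0∞ :=
  ∑ i ∈ Finset.range b.1, ENNReal.ofReal (amp m (b.2 i))

theorem mass_ne_top (m : ℕ) (b : Blk) : mass m b ≠ ⊤ := by
  unfold mass
  exact (ENNReal.sum_lt_top.2 fun i _ => ENNReal.ofReal_lt_top).ne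

theorem mass_le {m : ℕ} (hm : 0 < m) (b : Blk) :
    mass m b ≤ ENNReal.ofReal (((m : ℝ) ^ 2)⁻¹) * b.1 := by
  unfold mass
  calc ∑ i ∈ Finset.range b.1, ENNReal.ofReal (amp m (b.2 i))
      ≤ ∑ i ∈ Finset.range b.1, ENNReal.ofReal (((m : ℝ) ^ 2)⁻¹) :=
        Finset.sum_le_sum fun i _ => ENNReal.ofReal_le_ofReal (amp_le hm _)
    _ = _ := by rw [Finset.sum_const, Finset.card_range, nsmul_eq_mul, mul_comm]

theorem bm_le (k m : ℕ) (b : Blk) {A : Set ℝ} (hA : MeasurableSet A) : bm k m b A ≤ mass m b := by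
  rw [bm_apply k m b hA]
  unfold mass
  refine Finset.sum_le_sum fun i _ => ?_
  by_cases h : tau k (b.2 i) ∈ A
  · rw [indicator_of_mem h, mul_one]
  · rw [indicator_of_notMem h, mul_zero]; exact zero_le

theorem bm_Iic_eq_zero {k m : ℕ} {T : ℝ} (h : T < k) (b : Blk) : bm k m b (Iic T) = 0 := by
  rw [bm_apply k m b measurableSet_Iic]
  refine Finset.sum_eq_zero fun i _ => ?_
  rw [indicator_of_notMem, mul_zero]
  rw [mem_Iic, not_le]
  exact lt_of_lt_of_le h (le_tau k _)

theorem measurable_bm (k m : ℕ) {A : Set ℝ} (hA : MeasurableSet A) :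
    Measurable (fun b : Blk => bm k m b A) := by
  have h0 : (fun b : Blk => bm k m b A) = fun b => ∑ i ∈ Finset.range b.1,
      ENNReal.ofReal (amp m (b.2 i)) * A.indicator (fun _ => 1) (tau k (b.2 i)) := by
    funext b
    exact bm_apply k m b hA
  rw [h0]
  apply measurable_from_prod_countable_right
  intro n
  simp only
  refine Finset.measurable_sum _ fun i _ => ?_
  have h1 : Measurable (fun v : Mark => ENNReal.ofReal (amp m v) *
      A.indicator (fun _ => (1:ℝ≥0∞)) (tau k v)) :=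
    (measurable_amp m).ennreal_ofReal.mul
      ((measurable_const.indicator hA).comp (measurable_tau k))
  exact h1.comp (measurable_pi_apply i)

theorem measurable_mass (m : ℕ) : Measurable (mass m) := by
  unfold mass
  apply measurable_from_prod_countable_right
  intro n
  simp only
  refine Finset.measurable_sum _ fun i _ => ?_
  exact ((measurable_amp m).ennreal_ofReal).comp (measurable_pi_apply i)

/-- The jump measure of the sign `s`, keeping only the rank blocks `m ≥ M`. -/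
noncomputable def kappa (M : ℕ) (s : Bool) (ω : Om) : Measure ℝ :=
  Measure.sum (fun p : ℕ × ℕ => bm p.1 (p.2 + M) (ω (p.1, p.2 + M, s)))

theorem kappa_apply (M : ℕ) (s : Bool) (ω : Om) {A : Set ℝ} (hA : MeasurableSet A) :
    kappa M s ω A = ∑' p : ℕ × ℕ, bm p.1 (p.2 + M) (ω (p.1, p.2 + M, s)) A := by
  unfold kappa
  rw [Measure.sum_apply _ hA]

theorem kappa_apply' (M : ℕ) (s : Bool) (ω : Om) {A : Set ℝ} (hA : MeasurableSet A) :
    kappa M s ω A = ∑' k : ℕ, ∑' m : ℕ, bm k (m + M) (ω (k, m + M, s)) A := by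
  rw [kappa_apply M s ω hA, ENNReal.tsum_prod']

theorem measurable_kappa (M : ℕ) (s : Bool) {A : Set ℝ} (hA : MeasurableSet A) :
    Measurable (fun ω => kappa M s ω A) := by
  simp_rw [kappa_apply M s _ hA]
  refine Measurable.tsum fun p => ?_
  exact (measurable_bm _ _ hA).comp (measurable_pi_apply _)

/-- splitting off the first rank blocks -/
theorem kappa_split (M : ℕ) (s : Bool) (ω : Om) {A : Set ℝ} (hA : MeasurableSet A) :
    kappa 0 s ω A = (∑' k : ℕ, ∑ m ∈ Finset.range M, bm k m (ω (k, m, s)) A) + kappa M s ω A := by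
  rw [kappa_apply' 0 s ω hA, kappa_apply' M s ω hA, ← ENNReal.tsum_add]
  refine tsum_congr fun k => ?_
  have h := (ENNReal.summable (f := fun m => bm k (m + M) (ω (k, m + M, s)) A)).sum_add_tsum_nat_add'
    (f := fun m => bm k m (ω (k, m, s)) A) (k := M)
  simpa using h.symm

/-- total mass of the rank blocks `m ≥ M` in the time block `k` -/
noncomputable def tail (M k : ℕ) (s : Bool) (ω : Om) : ℝ≥0∞ := ∑' m : ℕ, mass (m + M) (ω (k, m + M, s))

theorem measurable_tail (M k : ℕ) (s : Bool) : Measurable (tail M k s) := by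
  unfold tail
  refine Measurable.tsum fun m => ?_
  exact (measurable_mass _).comp (measurable_pi_apply _)

theorem tail_zero (k : ℕ) (s : Bool) (ω : Om) : tail 0 k s ω = mass 0 (ω (k, 0, s)) + tail 1 k s ω := by
  unfold tail
  have h := (ENNReal.summable (f := fun m => mass (m + 1) (ω (k, m + 1, s)))).sum_add_tsum_nat_add'
    (f := fun m => mass m (ω (k, m, s))) (k := 1)
  simpa using h.symm

theorem sum_inv_sq_le (M : ℕ) (hM : 0 < M) :
    ∑' m : ℕ, ENNReal.ofReal ((((m + M : ℕ) : ℝ) ^ 2)⁻¹) ≤ ENNReal.ofReal (2 / M) := by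
  rw [ENNReal.tsum_eq_iSup_nat]
  refine iSup_le fun n => ?_
  rw [← ENNReal.ofReal_sum_of_nonneg (fun i _ => by positivity)]
  apply ENNReal.ofReal_le_ofReal
  have key : ∀ n : ℕ, ∑ m ∈ Finset.range n, ((((m + M : ℕ) : ℝ) ^ 2)⁻¹) ≤
      2 / M - 2 / ((n + M : ℕ) : ℝ) := by
    intro n
    induction n with
    | zero => simp
    | succ n ih =>
      rw [Finset.sum_range_succ]
      have hx : (1 : ℝ) ≤ ((n + M : ℕ) : ℝ) := by exact_mod_cast (by omega : 1 ≤ n + M)
      have h1 : ((n + 1 + M : ℕ) : ℝ) = ((n + M : ℕ) : ℝ) + 1 := by push_cast; ring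
      rw [h1]
      set x : ℝ := ((n + M : ℕ) : ℝ) with hxdef
      have h2 : (x ^ 2)⁻¹ ≤ 2 / x - 2 / (x + 1) := by
        have hx0 : 0 < x := by linarith
        rw [div_sub_div _ _ hx0.ne' (by linarith), inv_eq_one_div,
          div_le_div_iff₀ (by positivity) (by positivity)]
        nlinarith
      linarith
  refine (key n).trans ?_
  have : (0 : ℝ) ≤ 2 / ((n + M : ℕ) : ℝ) := by positivity
  linarith

theorem lintegral_tail (r : ℝ≥0) {M : ℕ} (hM : 0 < M) (k : ℕ) (s : Bool) :
    ∫⁻ ω, tail M k s ω ∂(PP r) ≤ ENNReal.ofReal (2 / M) * r := by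
  unfold tail
  have hmm : ∀ m : ℕ, Measurable (fun ω : Om => mass (m + M) (ω (k, m + M, s))) :=
    fun m => (measurable_mass _).comp (measurable_pi_apply _)
  rw [lintegral_tsum (f := fun m (ω : Om) => mass (m + M) (ω (k, m + M, s)))
    (fun m => (hmm m).aemeasurable)]
  calc ∑' m : ℕ, ∫⁻ ω : Om, mass (m + M) (ω (k, m + M, s)) ∂(PP r)
      ≤ ∑' m : ℕ, ENNReal.ofReal ((((m + M : ℕ) : ℝ) ^ 2)⁻¹) * r := by
        refine ENNReal.tsum_le_tsum fun m => ?_
        calc ∫⁻ ω : Om, mass (m + M) (ω (k, m + M, s)) ∂(PP r)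
            ≤ ∫⁻ ω : Om, ENNReal.ofReal ((((m + M : ℕ) : ℝ) ^ 2)⁻¹) *
                ((ω (k, m + M, s)).1 : ℝ≥0∞) ∂(PP r) :=
              lintegral_mono fun ω => mass_le (by omega) _
          _ = _ := by
              rw [lintegral_const_mul' _ _ ENNReal.ofReal_ne_top, lintegral_count]
    _ = (∑' m : ℕ, ENNReal.ofReal ((((m + M : ℕ) : ℝ) ^ 2)⁻¹)) * r := ENNReal.tsum_mul_right
    _ ≤ _ := by gcongr; exact sum_inv_sq_le M hM

/-- The good configurations. -/
def Good (ω : Om) : Prop := ∀ (k : ℕ) (s : Bool), tail 0 k s ω ≠ ⊤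

theorem ae_good (r : ℝ≥0) : ∀ᵐ ω ∂(PP r), Good ω := by
  unfold Good
  rw [ae_all_iff]
  intro k
  rw [ae_all_iff]
  intro s
  have h1 : ∀ᵐ ω ∂(PP r), tail 1 k s ω < ⊤ := by
    apply ae_lt_top (measurable_tail 1 k s)
    refine ((lintegral_tail r one_pos k s).trans_lt ?_).ne
    exact ENNReal.mul_lt_top ENNReal.ofReal_lt_top ENNReal.coe_lt_top
  filter_upwards [h1] with ω hω
  rw [tail_zero]
  exact ENNReal.add_ne_top.2 ⟨mass_ne_top _ _, hω.ne⟩

theorem kappa_Iic_lt (M : ℕ) (s : Bool) {ω : Om} (h : Good ω) (T : ℝ) :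
    kappa M s ω (Iic T) < ⊤ := by
  have h0 : kappa M s ω (Iic T) ≤ kappa 0 s ω (Iic T) := by
    rw [kappa_split M s ω measurableSet_Iic]
    exact le_add_self
  refine h0.trans_lt ?_
  rw [kappa_apply' 0 s ω measurableSet_Iic]
  have h1 : ∑' k : ℕ, ∑' m : ℕ, bm k (m + 0) (ω (k, m + 0, s)) (Iic T) ≤
      ∑' k : ℕ, (if k ∈ Finset.range (⌊T⌋₊ + 1) then tail 0 k s ω else 0) := by
    refine ENNReal.tsum_le_tsum fun k => ?_
    split_ifs with hk
    · unfold tail
      exact ENNReal.tsum_le_tsum fun m => bm_le _ _ _ measurableSet_Iic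
    · rw [Finset.mem_range, not_lt] at hk
      have hT : T < k := Nat.lt_of_floor_lt (by omega)
      simp [bm_Iic_eq_zero hT]
  refine h1.trans_lt ?_
  rw [tsum_eq_sum (s := Finset.range (⌊T⌋₊ + 1)) (fun k hk => if_neg hk)]
  refine ENNReal.sum_lt_top.2 fun k hk => ?_
  rw [if_pos hk]
  exact (h k s).lt_top

end Pool.Agent.P8H97.ST
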