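import Pool.Agent.P8H97.ST.Char

set_option autoImplicit false

/-!
# The characteristic function of the increments is that of the symmetric 1/2-stable process
-/

open MeasureTheory ProbabilityTheory Set Filter Topology
open scoped NNReal ENNReal

namespace Pool.Agent.P8H97.ST

theorem integrableOn_cf (x : ℝ) : IntegrableOn (cf x) (Ioi 0) := by
  have h1 : IntegrableOn (cf x) (Ioc 0 1) := by
    refine Measure.integrableOn_of_bounded (M := 2) (by simp) (measurable_cf x).aestronglyMeasurable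
      (ae_of_all _ (norm_cf x))
  have h2 : IntegrableOn (cf x) (Ioi 1) := by
    have h3 : IntegrableOn (fun ρ : ℝ => x ^ 2 / 2 * ρ ^ (-4 : ℝ)) (Ioi 1) :=
      (integrableOn_Ioi_rpow_of_lt (by norm_num) one_pos).const_mul _
    refine Integrable.mono' h3 (measurable_cf x).aestronglyMeasurable ?_
    filter_upwards [ae_restrict_mem measurableSet_Ioi] with ρ hρ
    have hρ0 : (0 : ℝ) < ρ := lt_trans one_pos hρ
    unfold cf
    rw [Complex.norm_real, Real.norm_eq_abs, abs_sub_comm,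
      abs_of_nonneg (by linarith [Real.cos_le_one (x * (ρ ^ 2)⁻¹)])]
    have h4 := Real.one_sub_sq_div_two_le_cos (x := x * (ρ ^ 2)⁻¹)
    have h5 : (ρ ^ (-4 : ℝ)) = ((ρ ^ 2)⁻¹) ^ 2 := by
      rw [Real.rpow_neg hρ0.le, ← inv_pow]
      congr 1
      norm_cast
      ring_nf
    rw [h5]
    nlinarith
  have := h1.union h2
  rwa [Ioc_union_Ioi_eq_Ioi zero_le_one] at this

theorem cf_abs (x ρ : ℝ) : cf |x| ρ = cf x ρ := by
  unfold cf
  congr 2
  rcases abs_choice x with h | h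
  · rw [h]
  · rw [h, neg_mul, Real.cos_neg]

/-- scaling -/
theorem integral_cf (x : ℝ) : ∫ ρ in Ioi (0:ℝ), cf x ρ = (√|x| : ℝ) * ∫ ρ in Ioi (0:ℝ), cf 1 ρ := by
  rcases eq_or_ne x 0 with rfl | hx
  · unfold cf
    simp
  have h0 : 0 < √|x| := Real.sqrt_pos.2 (abs_pos.2 hx)
  have h1 := integral_comp_mul_left_Ioi (cf |x|) 0 h0
  rw [mul_zero] at h1
  have h2 : ∀ u : ℝ, cf |x| (√|x| * u) = cf 1 u := by
    intro u
    unfold cf
    congr 3
    rw [mul_pow, Real.sq_sqrt (abs_nonneg x), mul_inv, ← mul_assoc,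
      mul_inv_cancel₀ (abs_pos.2 hx).ne']
  simp_rw [h2] at h1
  rw [h1]
  simp_rw [cf_abs]
  rw [Complex.real_smul, ← mul_assoc, ← Complex.ofReal_mul, mul_inv_cancel₀ h0.ne',
    Complex.ofReal_one, one_mul]

/-- the constant -/
noncomputable def Q1 : ℝ := ∫ ρ in Ioi (0:ℝ), (1 - Real.cos (1 * (ρ ^ 2)⁻¹))

theorem integral_cf_one : ∫ ρ in Ioi (0:ℝ), cf 1 ρ = ((-Q1 : ℝ) : ℂ) := by
  unfold Q1 cf
  have h : ∫ ρ in Ioi (0:ℝ), ((Real.cos (1 * (ρ ^ 2)⁻¹) - 1 : ℝ) : ℂ) =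
      ((∫ ρ in Ioi (0:ℝ), (Real.cos (1 * (ρ ^ 2)⁻¹) - 1) : ℝ) : ℂ) := integral_ofReal
  rw [h, ← integral_neg]
  congr 2
  funext ρ
  ring

theorem Q1_pos : 0 < Q1 := by
  unfold Q1
  have hint : IntegrableOn (fun ρ : ℝ => 1 - Real.cos (1 * (ρ ^ 2)⁻¹)) (Ioi 0) := by
    have h := (integrableOn_cf 1).re.neg
    refine h.congr (ae_of_all _ fun ρ => ?_)
    unfold cf
    change -(((Real.cos (1 * (ρ ^ 2)⁻¹) - 1 : ℝ) : ℂ)).re = _
    rw [Complex.ofReal_re]
    ring
  have hnn : ∀ ρ : ℝ, 0 ≤ 1 - Real.cos (1 * (ρ ^ 2)⁻¹) := fun ρ => by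
    linarith [Real.cos_le_one (1 * (ρ ^ 2)⁻¹)]
  have h1 : ∫ ρ in Ioc (1:ℝ) 2, (1 - Real.cos (1 / 4)) ≤
      ∫ ρ in Ioc (1:ℝ) 2, (1 - Real.cos (1 * (ρ ^ 2)⁻¹)) := by
    refine setIntegral_mono_on ?_ ?_ measurableSet_Ioc ?_
    · exact integrableOn_const (by simp)
    · exact hint.mono_set (fun x hx => lt_trans one_pos hx.1)
    · intro ρ hρ
      have h2 : (1:ℝ) / 4 ≤ 1 * (ρ ^ 2)⁻¹ := by
        rw [one_mul, one_div]
        apply inv_anti₀
        · have := hρ.1; positivity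
        · nlinarith [hρ.1, hρ.2]
      have h3 : 1 * (ρ ^ 2)⁻¹ ≤ Real.pi := by
        have h4 : 1 * (ρ ^ 2)⁻¹ ≤ 1 := by
          rw [one_mul]
          apply inv_le_one_of_one_le₀
          nlinarith [hρ.1]
        linarith [Real.pi_gt_three]
      have := Real.cos_le_cos_of_nonneg_of_le_pi (by norm_num : (0:ℝ) ≤ 1 / 4) h3 h2
      linarith
  have h2 : ∫ ρ in Ioc (1:ℝ) 2, (1 - Real.cos (1 * (ρ ^ 2)⁻¹)) ≤
      ∫ ρ in Ioi (0:ℝ), (1 - Real.cos (1 * (ρ ^ 2)⁻¹)) :=
    setIntegral_mono_set hint (ae_of_all _ hnn)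
      (LE.le.eventuallyLE (fun x hx => lt_trans one_pos hx.1))
  have h3 : ∫ ρ in Ioc (1:ℝ) 2, (1 - Real.cos (1 / 4)) = 1 - Real.cos (1 / 4) := by
    rw [setIntegral_const, Real.volume_real_Ioc_of_le (by norm_num)]
    norm_num
  have h4 : Real.cos (1 / 4) < 1 := by
    have := Real.cos_lt_one_div_sqrt_sq_add_one (x := 1 / 4) (by linarith [Real.pi_gt_three]) (by linarith [Real.pi_gt_three]) (by norm_num)
    refine this.trans_le ?_
    rw [div_le_one (by positivity)]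
    rw [Real.one_le_sqrt]
    norm_num
  linarith

theorem tendsto_PS {n : ℕ} {t : Fin (n + 1) → ℝ} (ht : Monotone t) (ht0 : 0 ≤ t 0)
    (ξ : Fin n → ℝ) {ω : Om} (h : Good ω) :
    Tendsto (fun M => PS t ξ M ω) atTop
      (𝓝 (∑ j, ξ j * (X (t j.succ) ω - X (t j.castSucc) ω))) := by
  unfold PS
  refine tendsto_finsetSum _ fun j _ => ?_
  refine Tendsto.const_mul _ ?_
  rw [X_sub h (ht0.trans (ht (Fin.zero_le _))) (ht (Fin.castSucc_le_succ j))]
  exact (tendsto_psum h true _ _).sub (tendsto_psum h false _ _)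

theorem measurable_PS {n : ℕ} (t : Fin (n + 1) → ℝ) (ξ : Fin n → ℝ) (M : ℕ) :
    Measurable (PS t ξ M) := by
  unfold PS
  refine Finset.measurable_sum _ fun j _ => ?_
  refine Measurable.const_mul ?_ _
  have h : ∀ s, Measurable (psum M s (Ioc (t j.castSucc) (t j.succ))) := by
    intro s
    have : psum M s (Ioc (t j.castSucc) (t j.succ)) = fun ω =>
        ∑ p ∈ Finset.range M ×ˢ Finset.range M,
          (bm p.1 p.2 (ω (p.1, p.2, s)) (Ioc (t j.castSucc) (t j.succ))).toReal := by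
      funext ω
      exact psum_eq M s measurableSet_Ioc ω
    rw [this]
    refine Finset.measurable_sum _ fun p _ => ?_
    exact ((measurable_bm _ _ measurableSet_Ioc).comp (measurable_pi_apply _)).ennreal_toReal
  exact (h true).sub (h false)

/-- the joint characteristic function of the increments -/
theorem char_joint {r : ℝ≥0} {n : ℕ} {t : Fin (n + 1) → ℝ} (ht : Monotone t) (ht0 : 0 ≤ t 0)
    (ξ : Fin n → ℝ) :
    ∫ ω, Complex.exp (((∑ j, ξ j * (X (t j.succ) ω - X (t j.castSucc) ω) : ℝ) : ℂ) * Complex.I)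
      ∂(PP r) =
      ∏ j, ((Real.exp (-(2 * r * Q1 * (t j.succ - t j.castSucc) * √|ξ j|)) : ℝ) : ℂ) := by
  have h1 : Tendsto (fun M : ℕ => ∫ ω, Complex.exp ((PS t ξ M ω : ℂ) * Complex.I) ∂(PP r)) atTop
      (𝓝 (∫ ω, Complex.exp (((∑ j, ξ j * (X (t j.succ) ω - X (t j.castSucc) ω) : ℝ) : ℂ) *
        Complex.I) ∂(PP r))) := by
    refine tendsto_integral_of_dominated_convergence (fun _ => (1:ℝ)) ?_ (integrable_const _) ?_ ?_
    · intro M
      apply Measurable.aestronglyMeasurable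
      exact Complex.measurable_exp.comp
        ((Complex.measurable_ofReal.comp (measurable_PS t ξ M)).mul_const _)
    · intro M
      refine ae_of_all _ fun ω => ?_
      rw [Complex.norm_exp_ofReal_mul_I]
    · filter_upwards [ae_good r] with ω hω
      have := tendsto_PS ht ht0 ξ hω
      exact ((Complex.continuous_exp.comp ((Complex.continuous_ofReal).mul
        continuous_const)).tendsto _).comp this
  have h2 : Tendsto (fun M : ℕ => ∫ ω, Complex.exp ((PS t ξ M ω : ℂ) * Complex.I) ∂(PP r)) atTop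
      (𝓝 (Complex.exp (2 * r * ∑ j, (t j.succ - t j.castSucc : ℝ) *
        ∫ ρ in Ioi (0:ℝ), cf (ξ j) ρ))) := by
    have h3 : Tendsto (fun M : ℕ => Complex.exp (2 * r * ∑ j, (t j.succ - t j.castSucc : ℝ) *
        ∫ ρ in (0:ℝ)..M, cf (ξ j) ρ)) atTop (𝓝 (Complex.exp (2 * r * ∑ j,
          (t j.succ - t j.castSucc : ℝ) * ∫ ρ in Ioi (0:ℝ), cf (ξ j) ρ))) := by
      refine (Complex.continuous_exp.tendsto _).comp ?_
      refine Tendsto.const_mul _ ?_
      refine tendsto_finsetSum _ fun j _ => ?_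
      refine Tendsto.const_mul _ ?_
      exact intervalIntegral_tendsto_integral_Ioi 0 (integrableOn_cf _) tendsto_natCast_atTop_atTop
    refine h3.congr' ?_
    filter_upwards [eventually_ge_atTop ⌈t (Fin.last n)⌉₊] with M hM
    rw [char_PS ht ht0 ξ M ((Nat.le_ceil _).trans (by exact_mod_cast hM))]
  rw [tendsto_nhds_unique h1 h2, ← Complex.ofReal_prod, ← Real.exp_sum, Complex.ofReal_exp]
  congr 1
  rw [Complex.ofReal_sum, Finset.mul_sum]
  refine Finset.sum_congr rfl fun j _ => ?_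
  rw [integral_cf, integral_cf_one]
  push_cast
  ring

end Pool.Agent.P8H97.ST
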