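import Pool.Agent.P8H97.ST.Kappa

set_option autoImplicit false

/-!
# The process and its paths
-/

open MeasureTheory ProbabilityTheory Set Filter Topology
open scoped NNReal ENNReal

namespace Pool.Agent.P8H97.ST

theorem rc_aux {κ : Measure ℝ} (h : ∀ T : ℝ, κ (Iic T) < ⊤) (t : ℝ) :
    ContinuousWithinAt (fun u => (κ (Ioc 0 u)).toReal) (Ici t) t := by
  rw [← continuousWithinAt_Ioi_iff_Ici]
  have hfin : ∀ u, κ (Ioc 0 u) ≠ ⊤ := fun u =>
    (lt_of_le_of_lt (measure_mono Ioc_subset_Iic_self) (h u)).ne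
  have h1 := tendsto_measure_biInter_gt (μ := κ) (s := fun r : ℝ => Ioc 0 r) (a := t)
    (fun r _ => measurableSet_Ioc.nullMeasurableSet)
    (fun i j _ hij => Ioc_subset_Ioc_right hij) ⟨t + 1, by simp, hfin _⟩
  have h2 : (⋂ r > t, Ioc (0 : ℝ) r) = Ioc 0 t := by
    ext x
    simp only [mem_iInter, mem_Ioc]
    constructor
    · intro hx
      refine ⟨(hx (t + 1) (by simp)).1, le_of_forall_gt_imp_ge_of_dense fun r hr => (hx r hr).2⟩
    · rintro ⟨h1, h2⟩ r hr
      exact ⟨h1, h2.trans (le_of_lt hr)⟩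
  rw [h2] at h1
  exact (ENNReal.tendsto_toReal (hfin t)).comp h1

theorem ll_aux {κ : Measure ℝ} (h : ∀ T : ℝ, κ (Iic T) < ⊤) (t : ℝ) :
    ∃ l : ℝ, Tendsto (fun u => (κ (Ioc 0 u)).toReal) (𝓝[<] t) (𝓝 l) := by
  have hfin : ∀ u, κ (Ioc 0 u) ≠ ⊤ := fun u =>
    (lt_of_le_of_lt (measure_mono Ioc_subset_Iic_self) (h u)).ne
  have hmono : Monotone (fun u => (κ (Ioc 0 u)).toReal) := by
    intro a b hab
    exact ENNReal.toReal_mono (hfin b) (measure_mono (Ioc_subset_Ioc_right hab))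
  exact ⟨_, hmono.tendsto_nhdsLT t⟩

/-- the symmetric stable process, up to a constant time change -/
noncomputable def X (t : ℝ) (ω : Om) : ℝ :=
  (kappa 0 true ω (Ioc 0 t)).toReal - (kappa 0 false ω (Ioc 0 t)).toReal

theorem measurable_X (t : ℝ) : Measurable (X t) := by
  unfold X
  exact (measurable_kappa 0 true measurableSet_Ioc).ennreal_toReal.sub
    (measurable_kappa 0 false measurableSet_Ioc).ennreal_toReal

theorem X_zero (ω : Om) : X 0 ω = 0 := by
  unfold X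
  simp

theorem cadlag {ω : Om} (h : Good ω) (t : ℝ) :
    ContinuousWithinAt (fun s => X s ω) (Ici t) t ∧
      ∃ l : ℝ, Tendsto (fun s => X s ω) (𝓝[<] t) (𝓝 l) := by
  have h1 : ∀ s T, kappa 0 s ω (Iic T) < ⊤ := fun s T => kappa_Iic_lt 0 s h T
  refine ⟨(rc_aux (h1 true) t).sub (rc_aux (h1 false) t), ?_⟩
  obtain ⟨l1, hl1⟩ := ll_aux (h1 true) t
  obtain ⟨l2, hl2⟩ := ll_aux (h1 false) t
  exact ⟨l1 - l2, hl1.sub hl2⟩

theorem kappa_Ioc_ne {M : ℕ} {s : Bool} {ω : Om} (h : Good ω) (a b : ℝ) :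
    kappa M s ω (Ioc a b) ≠ ⊤ :=
  (lt_of_le_of_lt (measure_mono Ioc_subset_Iic_self) (kappa_Iic_lt M s h b)).ne

/-- increments -/
theorem kappa_sub {M : ℕ} {s : Bool} {ω : Om} (h : Good ω) {a b : ℝ} (h0 : 0 ≤ a) (hab : a ≤ b) :
    (kappa M s ω (Ioc 0 b)).toReal - (kappa M s ω (Ioc 0 a)).toReal =
      (kappa M s ω (Ioc a b)).toReal := by
  have h1 : kappa M s ω (Ioc 0 b) = kappa M s ω (Ioc 0 a) + kappa M s ω (Ioc a b) := by
    rw [← measure_union _ measurableSet_Ioc, Ioc_union_Ioc_eq_Ioc h0 hab]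
    rw [Set.disjoint_left]
    intro x hx hx'
    exact absurd hx.2 (not_le.2 hx'.1)
  rw [h1, ENNReal.toReal_add (kappa_Ioc_ne h _ _) (kappa_Ioc_ne h _ _)]
  ring

theorem X_sub {ω : Om} (h : Good ω) {a b : ℝ} (h0 : 0 ≤ a) (hab : a ≤ b) :
    X b ω - X a ω = (kappa 0 true ω (Ioc a b)).toReal - (kappa 0 false ω (Ioc a b)).toReal := by
  unfold X
  rw [← kappa_sub h h0 hab, ← kappa_sub h h0 hab]
  ring

/-! ### The increments as limits of finite sums -/

/-- finite approximations of the jump measures -/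
noncomputable def psum (M : ℕ) (s : Bool) (A : Set ℝ) (ω : Om) : ℝ :=
  ∑ p ∈ Finset.range M ×ˢ Finset.range M, ∑ i ∈ Finset.range (ω (p.1, p.2, s)).1,
    amp p.2 ((ω (p.1, p.2, s)).2 i) *
      A.indicator (fun _ => (1 : ℝ)) (tau p.1 ((ω (p.1, p.2, s)).2 i))

theorem psum_eq (M : ℕ) (s : Bool) {A : Set ℝ} (hA : MeasurableSet A) (ω : Om) :
    psum M s A ω = ∑ p ∈ Finset.range M ×ˢ Finset.range M, (bm p.1 p.2 (ω (p.1, p.2, s)) A).toReal := by
  unfold psum
  refine Finset.sum_congr rfl fun p _ => ?_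
  rw [bm_apply _ _ _ hA, ENNReal.toReal_sum]
  · refine Finset.sum_congr rfl fun i _ => ?_
    rw [ENNReal.toReal_mul, ENNReal.toReal_ofReal (amp_nonneg _ _)]
    congr 1
    by_cases h : tau p.1 ((ω (p.1, p.2, s)).2 i) ∈ A
    · rw [indicator_of_mem h, indicator_of_mem h, ENNReal.toReal_one]
    · rw [indicator_of_notMem h, indicator_of_notMem h, ENNReal.toReal_zero]
  · intro i _
    refine ENNReal.mul_ne_top ENNReal.ofReal_ne_top ?_
    by_cases h : tau p.1 ((ω (p.1, p.2, s)).2 i) ∈ A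
    · rw [indicator_of_mem h]; exact ENNReal.one_ne_top
    · rw [indicator_of_notMem h]; exact ENNReal.zero_ne_top

theorem tendsto_square : Tendsto (fun M : ℕ => Finset.range M ×ˢ Finset.range M) atTop atTop := by
  apply tendsto_atTop_finset_of_monotone
  · intro a b hab
    exact Finset.product_subset_product (Finset.range_mono hab) (Finset.range_mono hab)
  · rintro ⟨x, y⟩
    refine ⟨max x y + 1, ?_⟩
    simp only [Finset.mem_product, Finset.mem_range]
    omega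

theorem tendsto_psum {ω : Om} (h : Good ω) (s : Bool) (a b : ℝ) :
    Tendsto (fun M => psum M s (Ioc a b) ω) atTop (𝓝 (kappa 0 s ω (Ioc a b)).toReal) := by
  simp_rw [psum_eq _ s measurableSet_Ioc]
  have hne := kappa_Ioc_ne (M := 0) (s := s) h a b
  rw [kappa_apply 0 s ω measurableSet_Ioc] at hne ⊢
  have h1 := (ENNReal.summable_toReal hne).hasSum
  have h2 : (∑' p : ℕ × ℕ, (bm p.1 (p.2 + 0) (ω (p.1, p.2 + 0, s)) (Ioc a b)).toReal) =
      (∑' p : ℕ × ℕ, bm p.1 (p.2 + 0) (ω (p.1, p.2 + 0, s)) (Ioc a b)).toReal :=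
    (ENNReal.tsum_toReal_eq (fun p => ENNReal.ne_top_of_tsum_ne_top hne p)).symm
  rw [h2] at h1
  exact h1.comp tendsto_square

end Pool.Agent.P8H97.ST
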