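import Pool.Agent.P8H97.ST.Lim

set_option autoImplicit false

/-!
# Existence of the symmetric 1/2-stable process
-/

open MeasureTheory ProbabilityTheory Set Filter Topology
open scoped NNReal ENNReal

namespace Pool.Agent.P8H97.ST

theorem char_single {r : ℝ≥0} {a b : ℝ} (h0 : 0 ≤ a) (hab : a ≤ b) (ξ : ℝ) :
    ∫ ω, Complex.exp (((ξ * (X b ω - X a ω) : ℝ) : ℂ) * Complex.I) ∂(PP r) =
      ((Real.exp (-(2 * r * Q1 * (b - a) * √|ξ|)) : ℝ) : ℂ) := by
  have hm : Monotone (![a, b] : Fin (1 + 1) → ℝ) := by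
    intro i j hij
    fin_cases i <;> fin_cases j <;> simp_all
  have h := char_joint (r := r) (n := 1) hm (by simpa using h0) ![ξ]
  simpa using h

theorem indep {r : ℝ≥0} {n : ℕ} {t : Fin (n + 1) → ℝ} (ht0 : 0 ≤ t 0) (ht : Monotone t) :
    iIndepFun (fun (i : Fin n) (ω : Om) => X (t i.succ) ω - X (t i.castSucc) ω) (PP r) := by
  have hm : ∀ i : Fin n, Measurable (fun ω : Om => X (t i.succ) ω - X (t i.castSucc) ω) :=
    fun i => (measurable_X _).sub (measurable_X _)
  rw [iIndepFun_iff_charFun_pi (fun i => (hm i).aemeasurable)]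
  intro ξ
  have h1 : ∀ i : Fin n, charFun ((PP r).map
      (fun ω : Om => X (t i.succ) ω - X (t i.castSucc) ω)) (ξ i) =
      ((Real.exp (-(2 * r * Q1 * (t i.succ - t i.castSucc) * √|ξ i|)) : ℝ) : ℂ) := by
    intro i
    rw [charFun_apply, integral_map (hm i).aemeasurable (by fun_prop)]
    rw [← char_single (ht0.trans (ht (Fin.zero_le _))) (ht (Fin.castSucc_le_succ i))]
    refine integral_congr_ae (ae_of_all _ fun ω => ?_)
    simp only [RCLike.inner_apply, conj_trivial]
  simp_rw [h1]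
  rw [← char_joint ht ht0]
  rw [charFun_apply, integral_map]
  · refine integral_congr_ae (ae_of_all _ fun ω => ?_)
    simp only [PiLp.inner_apply, RCLike.inner_apply, conj_trivial]
  · have : Measurable (fun ω : Om => (fun i : Fin n => X (t i.succ) ω - X (t i.castSucc) ω)) :=
      measurable_pi_lambda _ hm
    exact ((WithLp.measurable_toLp 2 (Fin n → ℝ)).comp this).aemeasurable
  · fun_prop

/-- the rate for which the process is the standard one -/
noncomputable def rate : ℝ≥0 := ⟨1 / (2 * Q1), by have := Q1_pos; positivity⟩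

theorem char_std {s t : ℝ} (hs : 0 ≤ s) (hst : s ≤ t) (ξ : ℝ) :
    ∫ ω, Complex.exp (((ξ * (X t ω - X s ω) : ℝ) : ℂ) * Complex.I) ∂(PP rate)
      = ((Real.exp (-(t - s) * |ξ| ^ (1 / 2 : ℝ)) : ℝ) : ℂ) := by
  rw [char_single hs hst]
  congr 2
  have h := Q1_pos
  rw [← Real.sqrt_eq_rpow]
  have : (rate : ℝ) = 1 / (2 * Q1) := rfl
  rw [this]
  field_simp

end Pool.Agent.P8H97.ST
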